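import Mathlib

set_option autoImplicit false

namespace Pool.Agent.Results.MP_24ca2e_an.IsoDosSphere

section

open scoped ComplexConjugate ENNReal InnerProductSpace

/-- A multigraph with vertex type `V` and edge type `E`; each edge `e` joins `fst e` and `snd e`.
Multiple edges and self-loops (`fst e = snd e`) are allowed. -/
structure Multigraph (V E : Type) where
  fst : E → V
  snd : E → V

namespace Multigraph

variable {V E : Type} (G : Multigraph V E)

/-- A dart is an edge with an orientation; `src` is the vertex it issues from. -/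
def src (d : E × Bool) : V := if d.2 then G.fst d.1 else G.snd d.1

/-- The vertex a dart leads to. -/
def tgt (d : E × Bool) : V := if d.2 then G.snd d.1 else G.fst d.1

/-- The same edge with the opposite orientation. -/
def rev (d : E × Bool) : E × Bool := (d.1, !d.2)

/-- Any two vertices are joined by a chain of edges, and there is a vertex. -/
def Connected : Prop :=
  Nonempty V ∧ ∀ x y : V, Relation.ReflTransGen (fun z w => ∃ d, G.src d = z ∧ G.tgt d = w) x y

/-- The degree of a vertex; a self-loop contributes two darts. -/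
noncomputable def degree (x : V) : ℕ := Nat.card {d : E × Bool // G.src d = x}

/-- The universal cover of `G`: a tree with vertex set `T` together with the covering map.
`vert` is the covering map on vertices; if a dart `d` of `G` issues from `vert y`, then
`step y d` is the other end of the unique edge of the tree at `y` lying over `d`.
`lift x` is a chosen vertex over `x`. -/
structure UniversalCover where
  T : Type
  tree : SimpleGraph T
  isTree : tree.IsTree
  vert : T → V
  step : T → E × Bool → T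
  vert_step : ∀ y d, G.src d = vert y → vert (step y d) = G.tgt d
  step_rev : ∀ y d, G.src d = vert y → step (step y d) (rev d) = y
  step_inj : ∀ y d d', G.src d = vert y → G.src d' = vert y → step y d = step y d' → d = d'
  adj_iff : ∀ y z, tree.Adj y z ↔ ∃ d, G.src d = vert y ∧ step y d = z
  lift : V → T
  vert_lift : ∀ x, vert (lift x) = x

variable {G}

theorem rev_rev (d : E × Bool) : rev (rev d) = d := by
  rcases d with ⟨e, b⟩; simp [rev]

theorem src_rev (d : E × Bool) : G.src (rev d) = G.tgt d := by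
  rcases d with ⟨e, b⟩; cases b <;> simp [rev, src, tgt]

theorem tgt_rev (d : E × Bool) : G.tgt (rev d) = G.src d := by
  rcases d with ⟨e, b⟩; cases b <;> simp [rev, src, tgt]

end Multigraph

/-- The Hilbert space of square-summable complex functions on `T`. -/
abbrev L2 (T : Type) : Type := lp (fun _ : T => ℂ) 2

/-! ### Truncated composition operators -/

section Comp

variable {T : Type}

open Classical in
/-- `(compFun S σ u) y = u (σ y)` for `y ∈ S` and `0` otherwise. -/
noncomputable def compFun (S : Set T) (σ : T → T) (u : T → ℂ) (y : T) : ℂ :=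
  if y ∈ S then u (σ y) else 0

theorem compFun_summable (S : Set T) (σ : T → T) (hσ : Set.InjOn σ S) (u : L2 T) :
    Summable (fun y => ‖compFun S σ u y‖ ^ 2) ∧
      ∑' y, ‖compFun S σ u y‖ ^ 2 ≤ ∑' y, ‖u y‖ ^ 2 := by
  have hu : Summable (fun y => ‖u y‖ ^ 2) := by
    have := (lp.memℓp u).summable (by norm_num)
    simpa using this
  have hinj : Function.Injective (fun y : S => σ y) := by
    intro a b hab
    exact Subtype.ext (hσ a.2 b.2 hab)
  have e : (fun y => ‖compFun S σ u y‖ ^ 2) = S.indicator (fun y => ‖u (σ y)‖ ^ 2) := by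
    funext y
    by_cases hy : y ∈ S <;> simp [compFun, hy]
  rw [e]
  constructor
  · rw [← summable_subtype_iff_indicator]
    exact hu.comp_injective hinj
  · rw [← tsum_subtype]
    exact tsum_comp_le_tsum_of_inj hu (fun _ => by positivity) hinj

theorem memℓp_of_summable (f : T → ℂ) (h : Summable (fun y => ‖f y‖ ^ 2)) :
    Memℓp f 2 := by
  refine memℓp_gen ?_
  simpa using h

theorem norm_sq_eq (u : L2 T) : ‖u‖ ^ 2 = ∑' y, ‖u y‖ ^ 2 := by
  have := lp.norm_rpow_eq_tsum (p := 2) (by norm_num) u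
  simpa using this

/-- The truncated composition operator as a bounded operator. -/
theorem exists_comp (S : Set T) (σ : T → T) (hσ : Set.InjOn σ S) :
    ∃ C : L2 T →L[ℂ] L2 T, ∀ u y, C u y = compFun S σ u y := by
  let L : L2 T →ₗ[ℂ] L2 T :=
    { toFun := fun u => ⟨compFun S σ u, memℓp_of_summable _ (compFun_summable S σ hσ u).1⟩
      map_add' := by
        intro u w
        ext y
        change compFun S σ (u + w : L2 T) y = compFun S σ u y + compFun S σ w y
        by_cases hy : y ∈ S <;> simp [compFun, hy]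
      map_smul' := by
        intro c u
        ext y
        change compFun S σ (c • u : L2 T) y = c • compFun S σ u y
        by_cases hy : y ∈ S <;> simp [compFun, hy] }
  refine ⟨L.mkContinuous 1 ?_, fun u y => rfl⟩
  intro u
  rw [one_mul]
  have h1 := (compFun_summable S σ hσ u).2
  have h2 : ‖L u‖ ^ 2 = ∑' y, ‖compFun S σ u y‖ ^ 2 := norm_sq_eq (L u)
  rw [← h2, ← norm_sq_eq] at h1
  exact (pow_le_pow_iff_left₀ (norm_nonneg _) (norm_nonneg _) two_ne_zero).1 h1

theorem comp_inner (S S' : Set T) (σ σ' : T → T) (h1 : ∀ y ∈ S, σ y ∈ S')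
    (h2 : ∀ z ∈ S', σ' z ∈ S) (h3 : ∀ y ∈ S, σ' (σ y) = y) (h4 : ∀ z ∈ S', σ (σ' z) = z)
    (u w : T → ℂ) :
    ∑' y, ⟪compFun S σ u y, w y⟫_ℂ = ∑' z, ⟪u z, compFun S' σ' w z⟫_ℂ := by
  have e1 : (fun y => ⟪compFun S σ u y, w y⟫_ℂ) = S.indicator (fun y => ⟪u (σ y), w y⟫_ℂ) := by
    funext y
    by_cases hy : y ∈ S <;> simp [compFun, hy]
  have e2 : (fun z => ⟪u z, compFun S' σ' w z⟫_ℂ) =
      S'.indicator (fun z => ⟪u z, w (σ' z)⟫_ℂ) := by
    funext y
    by_cases hy : y ∈ S' <;> simp [compFun, hy]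
  rw [e1, e2, ← tsum_subtype, ← tsum_subtype]
  let e : S ≃ S' :=
    { toFun := fun y => ⟨σ y, h1 y y.2⟩
      invFun := fun z => ⟨σ' z, h2 z z.2⟩
      left_inv := fun y => Subtype.ext (h3 y y.2)
      right_inv := fun z => Subtype.ext (h4 z z.2) }
  rw [← e.tsum_eq]
  refine tsum_congr fun y => ?_
  change ⟪u (σ y), w y⟫_ℂ = ⟪u (σ y), w (σ' (σ y))⟫_ℂ
  rw [h3 y y.2]

end Comp

section Op

variable {V E : Type} [Fintype E] [DecidableEq V] {G : Multigraph V E}

/-- The action of the lift of the Jacobi matrix `J = (b, a)` on functions on the tree: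
`(H u) y = b_{Ξ y} u y + ∑ a_{Ξ(y y')} u y'`, the sum over the neighbours `y'` of `y`, that is,
over the darts `d` of `G` that issue from `Ξ y = vert y`, with `y' = step y d`. -/
noncomputable def act (U : G.UniversalCover) (J : (V → ℝ) × (E → ℝ)) (u : U.T → ℂ) (y : U.T) : ℂ :=
  (J.1 (U.vert y) : ℂ) * u y +
    ∑ d : E × Bool, if G.src d = U.vert y then (J.2 d.1 : ℂ) * u (U.step y d) else 0

omit [Fintype E] [DecidableEq V] in
theorem step_injOn (U : G.UniversalCover) (d : E × Bool) :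
    Set.InjOn (fun y => U.step y d) {y | G.src d = U.vert y} := by
  intro y hy z hz h
  have h1 := U.step_rev y d hy
  have h2 := U.step_rev z d hz
  simp only at h
  rw [← h1, ← h2, h]

theorem exists_op [Fintype V] (U : G.UniversalCover) (J : (V → ℝ) × (E → ℝ)) :
    ∃ H : L2 U.T →L[ℂ] L2 U.T, ∀ (u : L2 U.T) (y : U.T), H u y = act U J u y := by
  classical
  choose C hC using fun d : E × Bool =>
    exists_comp {y | G.src d = U.vert y} (fun y => U.step y d) (step_injOn U d)
  choose P hP using fun x : V =>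
    exists_comp {y | x = U.vert y} (fun y => y) (Set.injOn_id _)
  refine ⟨∑ x, (J.1 x : ℂ) • P x + ∑ d, (J.2 d.1 : ℂ) • C d, ?_⟩
  intro u y
  simp only [add_apply, sum_apply,
    smul_apply, lp.coeFn_add, Pi.add_apply, lp.coeFn_sum, Finset.sum_apply,
    lp.coeFn_smul, Pi.smul_apply, hP, hC, compFun, smul_eq_mul, act, Set.mem_ofPred_eq, mul_ite,
    mul_zero]
  congr 1
  simp

/-- The lift `H` of the Jacobi matrix `J` to `ℓ²` of the tree, as a bounded operator. -/
noncomputable def op [Fintype V] (U : G.UniversalCover) (J : (V → ℝ) × (E → ℝ)) :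
    L2 U.T →L[ℂ] L2 U.T := (exists_op U J).choose

theorem op_apply [Fintype V] (U : G.UniversalCover) (J : (V → ℝ) × (E → ℝ)) (u : L2 U.T) (y : U.T) :
    op U J u y = act U J u y := (exists_op U J).choose_spec u y

theorem op_decomp [Fintype V] (U : G.UniversalCover) :
    ∃ (P : V → (L2 U.T →L[ℂ] L2 U.T)) (C : E × Bool → (L2 U.T →L[ℂ] L2 U.T)),
      (∀ x u y, P x u y = compFun {y | x = U.vert y} (fun y => y) u y) ∧
      (∀ d u y, C d u y = compFun {y | G.src d = U.vert y} (fun y => U.step y d) u y) ∧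
      ∀ J : (V → ℝ) × (E → ℝ), op U J = ∑ x, (J.1 x : ℂ) • P x + ∑ d, (J.2 d.1 : ℂ) • C d := by
  classical
  choose C hC using fun d : E × Bool =>
    exists_comp {y | G.src d = U.vert y} (fun y => U.step y d) (step_injOn U d)
  choose P hP using fun x : V =>
    exists_comp {y | x = U.vert y} (fun y => y) (Set.injOn_id _)
  refine ⟨P, C, hP, hC, fun J => ?_⟩
  ext u y
  rw [op_apply]
  simp only [add_apply, sum_apply,
    smul_apply, lp.coeFn_add, Pi.add_apply, lp.coeFn_sum, Finset.sum_apply,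
    lp.coeFn_smul, Pi.smul_apply, hP, hC, compFun, smul_eq_mul, act, Set.mem_ofPred_eq, mul_ite,
    mul_zero]
  congr 1
  simp

/-- The lift is symmetric. -/
theorem op_inner [Fintype V] (U : G.UniversalCover) (J : (V → ℝ) × (E → ℝ)) (u w : L2 U.T) :
    ⟪op U J u, w⟫_ℂ = ⟪u, op U J w⟫_ℂ := by
  obtain ⟨P, C, hP, hC, hJ⟩ := op_decomp U
  have h1 : ∀ x, ⟪P x u, w⟫_ℂ = ⟪u, P x w⟫_ℂ := by
    intro x
    simp only [lp.inner_eq_tsum, hP]
    exact comp_inner _ _ _ _ (fun y hy => hy) (fun y hy => hy) (fun y hy => rfl)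
      (fun y hy => rfl) u w
  have h2 : ∀ d, ⟪C d u, w⟫_ℂ = ⟪u, C (Multigraph.rev d) w⟫_ℂ := by
    intro d
    simp only [lp.inner_eq_tsum, hC]
    refine comp_inner _ _ _ _ ?_ ?_ ?_ ?_ u w
    · intro y hy
      have hy' : G.src d = U.vert y := hy
      change G.src (Multigraph.rev d) = U.vert (U.step y d)
      rw [U.vert_step y d hy', Multigraph.src_rev]
    · intro z hz
      have hz' : G.src (Multigraph.rev d) = U.vert z := hz
      change G.src d = U.vert (U.step z (Multigraph.rev d))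
      rw [U.vert_step z _ hz', Multigraph.tgt_rev]
    · intro y hy
      exact U.step_rev y d hy
    · intro z hz
      have := U.step_rev z _ hz
      rwa [Multigraph.rev_rev] at this
  rw [hJ J]
  simp only [add_apply, sum_apply, smul_apply, inner_add_left, inner_add_right, sum_inner,
    inner_sum, inner_smul_left, inner_smul_right, Complex.conj_ofReal, h1, h2]
  congr 1
  refine Fintype.sum_equiv (Function.Involutive.toPerm Multigraph.rev Multigraph.rev_rev) _ _ ?_
  intro d
  rfl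

theorem op_selfAdjoint [Fintype V] (U : G.UniversalCover) (J : (V → ℝ) × (E → ℝ)) :
    IsSelfAdjoint (op U J) := by
  rw [ContinuousLinearMap.isSelfAdjoint_iff_isSymmetric]
  intro u w
  exact op_inner U J u w

end Op

end

section

open scoped ComplexConjugate ENNReal InnerProductSpace

open Classical in
/-- The unit vector at the vertex `y`. -/
noncomputable def delta {T : Type} (y : T) : L2 T := lp.single 2 y 1

theorem delta_apply_self {T : Type} (y : T) : delta y y = 1 := by
  simp [delta]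

theorem delta_apply_ne {T : Type} (y z : T) (h : z ≠ y) : delta y z = 0 := by
  simp [delta, h]

open Classical in
theorem delta_apply {T : Type} (y z : T) : delta y z = if z = y then 1 else 0 := by
  by_cases h : z = y
  · subst h; simp [delta_apply_self]
  · simp [delta_apply_ne _ _ h, h]

theorem norm_delta {T : Type} (y : T) : ‖delta y‖ = 1 := by
  simp [delta, lp.norm_single]

theorem inner_delta_left {T : Type} (y : T) (u : L2 T) : ⟪delta y, u⟫_ℂ = u y := by
  simp [delta, lp.inner_single_left]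

theorem inner_delta_right {T : Type} (y : T) (u : L2 T) : ⟪u, delta y⟫_ℂ = conj (u y) := by
  simp [delta, lp.inner_single_right]

/-- `f(A)` for a bounded self-adjoint operator `A` on a Hilbert space: the continuous functional
calculus. -/
noncomputable def funCalc {𝓗 : Type} [NormedAddCommGroup 𝓗] [InnerProductSpace ℂ 𝓗]
    [CompleteSpace 𝓗] (f : ℝ → ℝ) (A : 𝓗 →L[ℂ] 𝓗) : 𝓗 →L[ℂ] 𝓗 := cfc f A

section Calc

variable {𝓗 : Type} [NormedAddCommGroup 𝓗] [InnerProductSpace ℂ 𝓗] [CompleteSpace 𝓗]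

theorem funCalc_poly (A : 𝓗 →L[ℂ] 𝓗) (hA : IsSelfAdjoint A) (p : Polynomial ℝ) :
    funCalc (fun x => p.eval x) A = ∑ n ∈ Finset.range (p.natDegree + 1),
      ((p.coeff n : ℝ) : ℂ) • A ^ n := by
  unfold funCalc
  rw [cfc_polynomial p A hA, Polynomial.aeval_eq_sum_range]
  rfl

theorem norm_funCalc_sub_le (A : 𝓗 →L[ℂ] 𝓗) (hA : IsSelfAdjoint A) (f g : ℝ → ℝ)
    (hf : Continuous f) (hg : Continuous g) (C ε : ℝ) (hC : ‖A‖ ≤ C) (hε : 0 ≤ ε)
    (h : ∀ x, |x| ≤ C → |f x - g x| ≤ ε) : ‖funCalc f A - funCalc g A‖ ≤ ε := by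
  unfold funCalc
  rw [← cfc_sub (a := A) f g hf.continuousOn hg.continuousOn]
  refine norm_cfc_le hε ?_
  intro x hx
  have hx' : ‖x‖ ≤ C := by
    refine le_trans ?_ hC
    by_cases hn : Nontrivial (𝓗 →L[ℂ] 𝓗)
    · exact spectrum.norm_le_norm_of_mem hx
    · rw [not_nontrivial_iff_subsingleton] at hn
      rw [spectrum.of_subsingleton] at hx
      exact absurd hx (Set.notMem_empty x)
  exact h x hx'

end Calc

section

variable {V E : Type} [Fintype V] [Fintype E] [DecidableEq V] {G : Multigraph V E}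

/-- The integral of `f` against the density of states of `J`:
`(1/p) ∑_x ⟨δ_x̃, f(H) δ_x̃⟩`, with `f(H)` given by the continuous functional calculus. -/
noncomputable def dos (U : G.UniversalCover) (J : (V → ℝ) × (E → ℝ)) (f : ℝ → ℝ) : ℝ :=
  (∑ x : V, (⟪delta (U.lift x), funCalc f (op U J) (delta (U.lift x))⟫_ℂ).re) / Fintype.card V

/-- The IsoDOS set of `J₀`: all Jacobi matrices on `G` with the same density of states. -/
def isoDOS (U : G.UniversalCover) (J₀ : (V → ℝ) × (E → ℝ)) : Set ((V → ℝ) × (E → ℝ)) :=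
  {J | (∀ e, 0 < J.2 e) ∧ ∀ f : ℝ → ℝ, Continuous f → dos U J f = dos U J₀ f}

/-- Unnormalised trace over a fundamental set of vertices. -/
noncomputable def tr (U : G.UniversalCover) (H : L2 U.T →L[ℂ] L2 U.T) : ℝ :=
  ∑ x : V, (⟪delta (U.lift x), H (delta (U.lift x))⟫_ℂ).re

omit [Fintype E] [DecidableEq V] in
theorem tr_add (U : G.UniversalCover) (H K : L2 U.T →L[ℂ] L2 U.T) :
    tr U (H + K) = tr U H + tr U K := by
  simp [tr, inner_add_right, Finset.sum_add_distrib]

omit [Fintype E] [DecidableEq V] in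
theorem tr_sub (U : G.UniversalCover) (H K : L2 U.T →L[ℂ] L2 U.T) :
    tr U (H - K) = tr U H - tr U K := by
  simp [tr, inner_sub_right, Finset.sum_sub_distrib]

omit [Fintype E] [DecidableEq V] in
theorem tr_smul (U : G.UniversalCover) (c : ℝ) (H : L2 U.T →L[ℂ] L2 U.T) :
    tr U ((c : ℂ) • H) = c * tr U H := by
  simp only [tr, Finset.mul_sum]
  refine Finset.sum_congr rfl fun x _ => ?_
  rw [smul_apply, inner_smul_right]
  simp

omit [Fintype E] [DecidableEq V] in
theorem tr_sum (U : G.UniversalCover) {ι : Type} (s : Finset ι)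
    (H : ι → (L2 U.T →L[ℂ] L2 U.T)) :
    tr U (∑ i ∈ s, H i) = ∑ i ∈ s, tr U (H i) := by
  classical
  induction s using Finset.induction_on with
  | empty => simp [tr]
  | insert i s hi ih => rw [Finset.sum_insert hi, Finset.sum_insert hi, tr_add, ih]

omit [Fintype E] [DecidableEq V] in
theorem abs_tr_le (U : G.UniversalCover) (H : L2 U.T →L[ℂ] L2 U.T) :
    |tr U H| ≤ Fintype.card V * ‖H‖ := by
  unfold tr
  calc |∑ x : V, (⟪delta (U.lift x), H (delta (U.lift x))⟫_ℂ).re|
      ≤ ∑ x : V, |(⟪delta (U.lift x), H (delta (U.lift x))⟫_ℂ).re| := Finset.abs_sum_le_sum_abs _ _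
    _ ≤ ∑ x : V, ‖H‖ := by
        refine Finset.sum_le_sum fun x _ => ?_
        calc |(⟪delta (U.lift x), H (delta (U.lift x))⟫_ℂ).re|
            ≤ ‖⟪delta (U.lift x), H (delta (U.lift x))⟫_ℂ‖ := Complex.abs_re_le_norm _
          _ ≤ ‖delta (U.lift x)‖ * ‖H (delta (U.lift x))‖ := norm_inner_le_norm _ _
          _ ≤ 1 * (‖H‖ * 1) := by
              rw [norm_delta]
              have := H.le_opNorm (delta (U.lift x))
              rw [norm_delta] at this
              linarith
          _ = ‖H‖ := by ring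
    _ = Fintype.card V * ‖H‖ := by simp

theorem dos_eq_tr (U : G.UniversalCover) (J : (V → ℝ) × (E → ℝ)) (f : ℝ → ℝ) :
    dos U J f = tr U (funCalc f (op U J)) / Fintype.card V := rfl

theorem tr_poly (U : G.UniversalCover) (J : (V → ℝ) × (E → ℝ)) (p : Polynomial ℝ) :
    tr U (funCalc (fun x => p.eval x) (op U J)) =
      ∑ n ∈ Finset.range (p.natDegree + 1), p.coeff n * tr U (op U J ^ n) := by
  rw [funCalc_poly _ (op_selfAdjoint U J), tr_sum]
  exact Finset.sum_congr rfl fun n _ => tr_smul _ _ _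

theorem dos_eq_of_moments (U : G.UniversalCover) (J J' : (V → ℝ) × (E → ℝ))
    (h : ∀ n, tr U (op U J ^ n) = tr U (op U J' ^ n)) (f : ℝ → ℝ) (hf : Continuous f) :
    dos U J f = dos U J' f := by
  have hsa := op_selfAdjoint U J
  have hsa' := op_selfAdjoint U J'
  rw [dos_eq_tr, dos_eq_tr]
  congr 1
  by_contra hne
  set C : ℝ := max ‖op U J‖ ‖op U J'‖ with hC
  set D : ℝ := |tr U (funCalc f (op U J)) - tr U (funCalc f (op U J'))| with hD
  have hDpos : 0 < D := abs_pos.2 (sub_ne_zero.2 hne)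
  set ε : ℝ := D / (4 * (Fintype.card V + 1)) with hε
  have hεpos : 0 < ε := by positivity
  obtain ⟨p, hp⟩ := exists_polynomial_near_of_continuousOn (-C) C f hf.continuousOn ε hεpos
  have key : ∀ J₁ : (V → ℝ) × (E → ℝ), ‖op U J₁‖ ≤ C →
      |tr U (funCalc f (op U J₁)) - tr U (funCalc (fun x => p.eval x) (op U J₁))| ≤
        Fintype.card V * ε := by
    intro J₁ hJ₁
    rw [← tr_sub]
    refine (abs_tr_le _ _).trans ?_
    refine mul_le_mul_of_nonneg_left ?_ (by positivity)
    refine norm_funCalc_sub_le _ (op_selfAdjoint U J₁) _ _ hf (Polynomial.continuous p) C ε hJ₁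
      hεpos.le ?_
    intro x hx
    rw [abs_le] at hx
    have := hp x ⟨hx.1, hx.2⟩
    rw [abs_sub_comm]
    exact this.le
  have k1 := key J (le_max_left _ _)
  have k2 := key J' (le_max_right _ _)
  have hpeq : tr U (funCalc (fun x => p.eval x) (op U J)) =
      tr U (funCalc (fun x => p.eval x) (op U J')) := by
    rw [tr_poly, tr_poly]
    simp only [h]
  have : D ≤ 2 * (Fintype.card V * ε) := by
    rw [hD]
    rw [hpeq] at k1
    rw [abs_le] at k1 k2 ⊢
    constructor <;> linarith [k1.1, k1.2, k2.1, k2.2]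
  have h4 : (4 * ((Fintype.card V : ℝ) + 1)) * ε = D := by
    rw [hε]; field_simp
  nlinarith [hεpos, this, h4]

theorem moments_of_dos_eq [Nonempty V] (U : G.UniversalCover) (J J' : (V → ℝ) × (E → ℝ))
    (h : ∀ f : ℝ → ℝ, Continuous f → dos U J f = dos U J' f) (n : ℕ) :
    tr U (op U J ^ n) = tr U (op U J' ^ n) := by
  have h1 := h (fun x => (Polynomial.X ^ n : Polynomial ℝ).eval x) (Polynomial.continuous _)
  rw [dos_eq_tr, dos_eq_tr] at h1
  have hc : (Fintype.card V : ℝ) ≠ 0 := by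
    exact_mod_cast Fintype.card_ne_zero
  have h2 := (div_left_inj' hc).1 h1
  rw [tr_poly, tr_poly] at h2
  simpa [Polynomial.coeff_X_pow] using h2

end

end

section

open scoped ComplexConjugate ENNReal InnerProductSpace

abbrev F : Type := FreeGroup (Fin 3)

/-- the `i`-th generator -/
abbrev gen (i : Fin 3) : F := FreeGroup.of i

/-- The reduced word of `g` ends in the letter `(i, true)`. -/
def chi (i : Fin 3) (g : F) : Prop := g.toWord.getLast? = some (i, true)

theorem toWord_gen_mul (j : Fin 3) (g : F) : (gen j * g).toWord = match g.toWord with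
    | [] => [(j, true)]
    | y :: t => if j = y.1 ∧ true = !y.2 then t else (j, true) :: y :: t := by
  rw [FreeGroup.toWord_mul, FreeGroup.toWord_of]
  simp only [List.cons_append, List.nil_append, FreeGroup.reduce.cons, FreeGroup.reduce_toWord]
  cases g.toWord <;> rfl

theorem not_chi_one (i : Fin 3) : ¬ chi i 1 := by simp [chi]

theorem chi_gen (i : Fin 3) : chi i (gen i) := by simp [chi]

theorem chi_gen_mul (i j : Fin 3) (g : F) (h : ¬ (g = 1 ∧ j = i)) :
    chi i (gen j * g) ↔ chi i g := by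
  unfold chi
  rw [toWord_gen_mul]
  rcases hw : g.toWord with _ | ⟨⟨y, c⟩, t⟩
  · have hg : g = 1 := FreeGroup.toWord_eq_nil_iff.1 hw
    have : j ≠ i := fun hj => h ⟨hg, hj⟩
    simp [this]
  · by_cases hc : j = y ∧ true = !c
    · simp only [hc]
      rcases t with _ | ⟨z, t⟩
      · obtain ⟨_, hc2⟩ := hc
        have : c = false := by simpa using hc2.symm
        simp [this]
      · simp [List.getLast?_cons_cons]
    · have : ¬ (j = (y, c).1 ∧ true = !(y, c).2) := hc
      simp only [this, if_false, List.getLast?_cons_cons]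

instance : Infinite F := by
  refine Infinite.of_injective (fun n : ℕ => gen 0 ^ n) ?_
  intro a b h
  have := congrArg FreeGroup.norm h
  simpa [FreeGroup.norm_of_pow] using this

/-- Translations preserve square-summability. -/
theorem summable_translate (u : F → ℂ) (hu : Summable fun g => ‖u g‖ ^ 2) (h : F) :
    Summable fun g => ‖u (g * h)‖ ^ 2 :=
  (Equiv.mulRight h).summable_iff.2 hu

theorem summable_left (u : F → ℂ) (hu : Summable fun g => ‖u g‖ ^ 2) (h : F) :
    Summable fun g => ‖u (h * g)‖ ^ 2 :=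
  (Equiv.mulLeft h).summable_iff.2 hu

theorem summable_left' (u : F → ℂ) (hu : Summable u) (h : F) :
    Summable fun g => u (h * g) :=
  (Equiv.mulLeft h).summable_iff.2 hu

theorem tsum_left (u : F → ℂ) (h : F) : ∑' g, u (h * g) = ∑' g, u g :=
  (Equiv.mulLeft h).tsum_eq u

theorem summable_mul_of_sq (u w : F → ℂ) (hu : Summable fun g => ‖u g‖ ^ 2)
    (hw : Summable fun g => ‖w g‖ ^ 2) : Summable fun g => u g * w g := by
  refine Summable.of_norm_bounded (g := fun g => ‖u g‖ ^ 2 + ‖w g‖ ^ 2) (hu.add hw) ?_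
  intro g
  rw [norm_mul]
  nlinarith [sq_nonneg (‖u g‖ - ‖w g‖), sq_nonneg (‖u g‖), sq_nonneg (‖w g‖)]

open Classical in
/-- Indicator function of `chi i`. -/
noncomputable def chiFun (i : Fin 3) (g : F) : ℂ := if chi i g then 1 else 0

theorem chiFun_congr (i : Fin 3) (g h : F) (e : chi i g ↔ chi i h) : chiFun i g = chiFun i h := by
  unfold chiFun
  by_cases h1 : chi i g
  · rw [if_pos h1, if_pos (e.1 h1)]
  · rw [if_neg h1, if_neg (fun h2 => h1 (e.2 h2))]

theorem norm_chiFun_mul (i : Fin 3) (g : F) (z : ℂ) : ‖chiFun i g * z‖ ≤ ‖z‖ := by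
  unfold chiFun
  split_ifs <;> simp

/-- Wronskian of two functions along the `j`-th generator. -/
noncomputable def wr (u w : F → ℂ) (j : Fin 3) (g : F) : ℂ :=
  u g * w (gen j * g) - u (gen j * g) * w g

theorem summable_wr (u w : F → ℂ) (hu : Summable fun g => ‖u g‖ ^ 2)
    (hw : Summable fun g => ‖w g‖ ^ 2) (j : Fin 3) : Summable (wr u w j) :=
  Summable.sub (summable_mul_of_sq u (fun g => w (gen j * g)) hu (summable_left w hw (gen j)))
    (summable_mul_of_sq (fun g => u (gen j * g)) w (summable_left u hu (gen j)) hw)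

theorem summable_chi_mul (i : Fin 3) (f : F → ℂ) (hf : Summable f) :
    Summable fun g => chiFun i g * f g :=
  Summable.of_norm_bounded (g := fun g => ‖f g‖) hf.norm (fun g => norm_chiFun_mul i g _)

theorem tsum_chi_diff (i j : Fin 3) (f : F → ℂ) (hf : Summable f) :
    ∑' g, (chiFun i g * f g - chiFun i g * f ((gen j)⁻¹ * g)) =
      if j = i then - f 1 else 0 := by
  have hs1 := summable_chi_mul i f hf
  have hs2 : Summable fun g => chiFun i g * f ((gen j)⁻¹ * g) :=
    summable_chi_mul i _ (summable_left' f hf _)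
  have hs3 : Summable fun g => chiFun i (gen j * g) * f g := by
    have := summable_left' _ hs2 (gen j)
    refine this.congr fun g => ?_
    rw [inv_mul_cancel_left]
  rw [hs1.tsum_sub hs2]
  have hre : ∑' g, chiFun i g * f ((gen j)⁻¹ * g) = ∑' g, chiFun i (gen j * g) * f g := by
    rw [← tsum_left _ (gen j)]
    refine tsum_congr fun g => ?_
    rw [inv_mul_cancel_left]
  rw [hre, ← hs1.tsum_sub hs3]
  have hpt : ∀ g, g ≠ 1 → chiFun i g * f g - chiFun i (gen j * g) * f g = 0 := by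
    intro g hg
    rw [chiFun_congr i _ _ (chi_gen_mul i j g (fun h => hg h.1)), sub_self]
  rw [tsum_eq_single 1 hpt]
  by_cases hj : j = i
  · subst hj
    simp [chiFun, not_chi_one, chi_gen]
  · rw [chiFun_congr i _ _ (chi_gen_mul i j 1 (fun h => hj h.2)), sub_self, if_neg hj]

/-- The Wronskian argument at the edge from `1` to `gen i`. -/
theorem wronskian_one (κ : ℂ) (t : Fin 3 → ℂ) (ht : ∀ i, t i ≠ 0) (u w : F → ℂ)
    (hu : Summable fun g => ‖u g‖ ^ 2) (hw : Summable fun g => ‖w g‖ ^ 2)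
    (hu' : ∀ g, κ * u g = ∑ j, t j * (u (gen j * g) + u ((gen j)⁻¹ * g)))
    (hw' : ∀ g, κ * w g = ∑ j, t j * (w (gen j * g) + w ((gen j)⁻¹ * g))) (i : Fin 3) :
    u 1 * w (gen i) = u (gen i) * w 1 := by
  have hsum : ∀ j, Summable (wr u w j) := summable_wr u w hu hw
  have hdiv : ∀ g, ∑ j, t j * (wr u w j g - wr u w j ((gen j)⁻¹ * g)) = 0 := by
    intro g
    have e1 : ∑ j, t j * (wr u w j g - wr u w j ((gen j)⁻¹ * g)) =
        u g * (κ * w g) - (κ * u g) * w g := by
      rw [hu' g, hw' g, Finset.mul_sum, Finset.sum_mul, ← Finset.sum_sub_distrib]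
      refine Finset.sum_congr rfl fun j _ => ?_
      simp only [wr, mul_inv_cancel_left]
      ring
    rw [e1]; ring
  have hs : ∀ j, Summable fun g =>
      t j * (chiFun i g * wr u w j g - chiFun i g * wr u w j ((gen j)⁻¹ * g)) := fun j =>
    ((summable_chi_mul i _ (hsum j)).sub
      (summable_chi_mul i _ (summable_left' _ (hsum j) _))).mul_left _
  have h0 : ∑' g, ∑ j, t j *
      (chiFun i g * wr u w j g - chiFun i g * wr u w j ((gen j)⁻¹ * g)) = 0 := by
    have : ∀ g, ∑ j, t j *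
        (chiFun i g * wr u w j g - chiFun i g * wr u w j ((gen j)⁻¹ * g)) = 0 := by
      intro g
      have := congrArg (fun z => chiFun i g * z) (hdiv g)
      simp only [mul_zero, Finset.mul_sum] at this
      rw [← this]
      refine Finset.sum_congr rfl fun j _ => by ring
    simp only [this, tsum_zero]
  rw [Summable.tsum_finsetSum (fun j _ => hs j)] at h0
  simp only [tsum_mul_left, fun j => tsum_chi_diff i j _ (hsum j), mul_ite, mul_zero,
    Finset.sum_ite_eq', Finset.mem_univ, if_true] at h0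
  have h1 : wr u w i 1 = 0 := by
    rcases mul_eq_zero.1 h0 with h | h
    · exact absurd h (ht i)
    · exact neg_eq_zero.1 h
  simp only [wr, mul_one] at h1
  linear_combination h1

theorem closed_of_gen (S : F → Prop) (h1 : S 1) (hg : ∀ i g, S g → S (gen i * g))
    (hg' : ∀ i g, S g → S ((gen i)⁻¹ * g)) (g : F) : S g := by
  have : ∀ g h : F, S h → S (g * h) := by
    intro g
    induction g using FreeGroup.induction_on with
    | C1 => intro h hh; simpa using hh
    | of i => intro h hh; exact hg i h hh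
    | inv_of i _ => intro h hh; exact hg' i h hh
    | mul x y hx hy =>
      intro h hh
      rw [mul_assoc]
      exact hx _ (hy _ hh)
  simpa using this g 1 h1

/-- Nearest neighbour operators on the free group have no square-summable kernel. -/
theorem no_kernel (κ : ℂ) (t : Fin 3 → ℂ) (ht : ∀ i, t i ≠ 0) (u : F → ℂ)
    (hu : Summable fun g => ‖u g‖ ^ 2)
    (hu' : ∀ g, κ * u g = ∑ j, t j * (u (gen j * g) + u ((gen j)⁻¹ * g))) (g : F) : u g = 0 := by
  -- the translates of `u` are again solutions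
  have htr : ∀ (v : F → ℂ), (∀ g, κ * v g = ∑ j, t j * (v (gen j * g) + v ((gen j)⁻¹ * g))) →
      ∀ h g, κ * v (g * h) = ∑ j, t j * (v (gen j * g * h) + v ((gen j)⁻¹ * g * h)) := by
    intro v hv h g
    rw [hv (g * h)]
    simp only [mul_assoc]
  -- Wronskians vanish
  have hWr : ∀ (h x : F) (i : Fin 3), u x * u (gen i * x * h) = u (gen i * x) * u (x * h) := by
    intro h x i
    have := wronskian_one κ t ht (fun g => u (g * x)) (fun g => u (g * (x * h)))
      (summable_translate u hu x) (summable_translate u hu (x * h))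
      (fun g => htr u hu' x g) (fun g => htr u hu' (x * h) g) i
    simpa [mul_assoc] using this
  by_contra hne
  have hnz : ∀ x, u x ≠ 0 := by
    -- zero at a neighbour of a nonzero point forces zero everywhere
    have h1 : ∀ i x, u x ≠ 0 → u (gen i * x) ≠ 0 := by
      intro i x hx h0
      have : ∀ h, u (gen i * x * h) = 0 := by
        intro h
        have := hWr h x i
        rw [h0, zero_mul] at this
        exact (mul_eq_zero.1 this).resolve_left hx
      have := this ((gen i * x)⁻¹ * g)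
      rw [mul_inv_cancel_left] at this
      exact hne this
    have h2 : ∀ i x, u x ≠ 0 → u ((gen i)⁻¹ * x) ≠ 0 := by
      intro i x hx h0
      have : ∀ h, u ((gen i)⁻¹ * x * h) = 0 := by
        intro h
        have := hWr h ((gen i)⁻¹ * x) i
        rw [h0, zero_mul, mul_inv_cancel_left] at this
        exact (mul_eq_zero.1 this.symm).resolve_left hx
      have := this (((gen i)⁻¹ * x)⁻¹ * g)
      rw [mul_inv_cancel_left] at this
      exact hne this
    intro x
    have := closed_of_gen (fun y => u (y * g) ≠ 0) (by simpa using hne)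
      (fun i y hy => by simpa [mul_assoc] using h1 i _ hy)
      (fun i y hy => by simpa [mul_assoc] using h2 i _ hy) (x * g⁻¹)
    simpa using this
  -- all translates are proportional
  have hprop : ∀ h x, u (x * h) * u 1 = u h * u x := by
    intro h x
    refine closed_of_gen (fun x => u (x * h) * u 1 = u h * u x) ?_ ?_ ?_ x
    · simp
    · intro i x hx
      have h1 := hWr h x i
      have h2 : u x * (u (gen i * x * h) * u 1) = u x * (u h * u (gen i * x)) := by
        linear_combination u 1 * h1 + u (gen i * x) * hx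
      exact mul_left_cancel₀ (hnz x) h2
    · intro i x hx
      have h1 := hWr h ((gen i)⁻¹ * x) i
      rw [mul_inv_cancel_left] at h1
      have h2 : u x * (u ((gen i)⁻¹ * x * h) * u 1) = u x * (u h * u ((gen i)⁻¹ * x)) := by
        linear_combination (-u 1) * h1 + u ((gen i)⁻¹ * x) * hx
      exact mul_left_cancel₀ (hnz x) h2
  have hconst : ∀ h, ‖u h‖ = ‖u 1‖ := by
    intro h
    have hS : ∑' x, ‖u (x * h)‖ ^ 2 = ∑' x, ‖u x‖ ^ 2 :=
      (Equiv.mulRight h).tsum_eq (fun x => ‖u x‖ ^ 2)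
    have hpos : 0 < ∑' x, ‖u x‖ ^ 2 :=
      hu.tsum_pos (fun _ => by positivity) 1 (by have := norm_pos_iff.2 (hnz 1); positivity)
    have h1 : ∀ x, ‖u (x * h)‖ ^ 2 * ‖u 1‖ ^ 2 = ‖u h‖ ^ 2 * ‖u x‖ ^ 2 := by
      intro x
      have := congrArg (fun z => ‖z‖ ^ 2) (hprop h x)
      simpa [mul_pow] using this
    have h2 : (∑' x, ‖u x‖ ^ 2) * ‖u 1‖ ^ 2 = ‖u h‖ ^ 2 * ∑' x, ‖u x‖ ^ 2 := by
      calc (∑' x, ‖u x‖ ^ 2) * ‖u 1‖ ^ 2 = (∑' x, ‖u (x * h)‖ ^ 2) * ‖u 1‖ ^ 2 := by rw [hS]
        _ = ∑' x, ‖u (x * h)‖ ^ 2 * ‖u 1‖ ^ 2 := by rw [tsum_mul_right]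
        _ = ∑' x, ‖u h‖ ^ 2 * ‖u x‖ ^ 2 := tsum_congr h1
        _ = ‖u h‖ ^ 2 * ∑' x, ‖u x‖ ^ 2 := by rw [tsum_mul_left]
    have h3 : ‖u h‖ ^ 2 = ‖u 1‖ ^ 2 := by
      have : (∑' x, ‖u x‖ ^ 2) * ‖u 1‖ ^ 2 = (∑' x, ‖u x‖ ^ 2) * ‖u h‖ ^ 2 := by
        rw [h2]; ring
      exact (mul_left_cancel₀ hpos.ne' this).symm
    exact (pow_left_inj₀ (norm_nonneg _) (norm_nonneg _) two_ne_zero).1 h3
  have hs : Summable fun _ : F => ‖u 1‖ ^ 2 := by
    refine hu.congr fun x => ?_
    rw [hconst x]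
  rw [summable_const_iff] at hs
  have : ‖u 1‖ = 0 := by simpa using hs
  exact hnz 1 (norm_eq_zero.1 this)

end

section

open scoped ComplexConjugate ENNReal InnerProductSpace

open Multigraph

/-- The graph: a centre `none` and three vertices `some i`, each joined to the centre by the two
edges `(i, false)` and `(i, true)`. -/
def star3 : Multigraph (Option (Fin 3)) (Fin 3 × Bool) where
  fst _ := none
  snd e := some e.1

theorem star3_src_true (e : Fin 3 × Bool) : star3.src (e, true) = none := rfl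
theorem star3_src_false (e : Fin 3 × Bool) : star3.src (e, false) = some e.1 := rfl
theorem star3_tgt_true (e : Fin 3 × Bool) : star3.tgt (e, true) = some e.1 := rfl
theorem star3_tgt_false (e : Fin 3 × Bool) : star3.tgt (e, false) = none := rfl

theorem star3_connected : star3.Connected := by
  refine ⟨⟨none⟩, ?_⟩
  have h1 : ∀ i, Relation.ReflTransGen (fun z w => ∃ d, star3.src d = z ∧ star3.tgt d = w)
      none (some i) := fun i => Relation.ReflTransGen.single ⟨((i, false), true), rfl, rfl⟩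
  have h2 : ∀ i, Relation.ReflTransGen (fun z w => ∃ d, star3.src d = z ∧ star3.tgt d = w)
      (some i) none := fun i => Relation.ReflTransGen.single ⟨((i, false), false), rfl, rfl⟩
  intro x y
  rcases x with _ | i <;> rcases y with _ | j
  · exact Relation.ReflTransGen.refl
  · exact h1 j
  · exact h2 i
  · exact (h2 i).trans (h1 j)

theorem star3_degree (x : Option (Fin 3)) : 2 ≤ star3.degree x := by
  classical
  unfold Multigraph.degree
  rw [Nat.card_eq_fintype_card]
  rcases x with _ | i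
  · have : (2 : ℕ) = Fintype.card Bool := by simp
    rw [this]
    refine Fintype.card_le_of_injective
      (fun c : Bool => (⟨((0, c), true), rfl⟩ : {d // star3.src d = none})) ?_
    intro a b h
    exact congrArg (fun z => z.1.1.2) h
  · have : (2 : ℕ) = Fintype.card Bool := by simp
    rw [this]
    refine Fintype.card_le_of_injective
      (fun c : Bool => (⟨((i, c), false), rfl⟩ : {d // star3.src d = some i})) ?_
    intro a b h
    exact congrArg (fun z => z.1.1.2) h

/-- Vertices of the universal cover: `Sum.inl g` lies over the centre; `Sum.inr (g, i)` lies over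
`some i` and is the midpoint between `Sum.inl g` and `Sum.inl (gen i * g)`. -/
abbrev T3 : Type := F ⊕ (F × Fin 3)

def vert3 : T3 → Option (Fin 3)
  | Sum.inl _ => none
  | Sum.inr p => some p.2

def step3 : T3 → (Fin 3 × Bool) × Bool → T3
  | Sum.inl g, ((i, false), _) => Sum.inr (g, i)
  | Sum.inl g, ((i, true), _) => Sum.inr ((gen i)⁻¹ * g, i)
  | Sum.inr (g, _), ((_, false), _) => Sum.inl g
  | Sum.inr (g, _), ((i, true), _) => Sum.inl (gen i * g)

/-- `Sum.inl h` and `Sum.inr (g, i)` are adjacent iff `h = g` or `h = gen i * g`. -/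
def adj0 : T3 → T3 → Prop
  | Sum.inl h, Sum.inr (g, i) => h = g ∨ h = gen i * g
  | _, _ => False

def tree3 : SimpleGraph T3 where
  Adj y z := adj0 y z ∨ adj0 z y
  symm := ⟨fun y z h => h.symm⟩
  loopless := ⟨fun y h => by rcases y with g | ⟨g, i⟩ <;> simp [adj0] at h⟩

theorem tree3_adj_left (h g : F) (i : Fin 3) :
    tree3.Adj (Sum.inl h) (Sum.inr (g, i)) ↔ h = g ∨ h = gen i * g := by
  simp [tree3, adj0]

theorem tree3_adj_right (h g : F) (i : Fin 3) :
    tree3.Adj (Sum.inr (g, i)) (Sum.inl h) ↔ h = g ∨ h = gen i * g := by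
  simp [tree3, adj0]

theorem tree3_adj_ll (h g : F) : ¬ tree3.Adj (Sum.inl h) (Sum.inl g) := by
  simp [tree3, adj0]

theorem tree3_adj_rr (p q : F × Fin 3) : ¬ tree3.Adj (Sum.inr p) (Sum.inr q) := by
  simp [tree3, adj0]

theorem tree3_connected : tree3.Connected := by
  have h1 : ∀ (g : F) (i : Fin 3), tree3.Reachable (Sum.inl g) (Sum.inr (g, i)) := fun g i =>
    ((tree3_adj_left g g i).2 (Or.inl rfl)).reachable
  have h2 : ∀ (g : F) (i : Fin 3), tree3.Reachable (Sum.inl (gen i * g)) (Sum.inr (g, i)) :=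
    fun g i => ((tree3_adj_left _ g i).2 (Or.inr rfl)).reachable
  have h3 : ∀ g : F, tree3.Reachable (Sum.inl 1) (Sum.inl g) := by
    refine closed_of_gen _ (SimpleGraph.Reachable.refl _) ?_ ?_
    · intro i g hg
      exact hg.trans ((h1 g i).trans (h2 g i).symm)
    · intro i g hg
      have := (h1 ((gen i)⁻¹ * g) i).trans (h2 ((gen i)⁻¹ * g) i).symm
      rw [mul_inv_cancel_left] at this
      exact hg.trans this.symm
  have h4 : ∀ y : T3, tree3.Reachable (Sum.inl 1) y := by
    intro y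
    rcases y with g | ⟨g, i⟩
    · exact h3 g
    · exact (h3 g).trans (h1 g i)
  exact { preconnected := fun y z => (h4 y).symm.trans (h4 z), nonempty := ⟨Sum.inl 1⟩ }

/-- A predicate invariant along all edges but one shows that this edge is a bridge. -/
theorem isBridge_of_pred {W : Type} (Γ : SimpleGraph W) (v w : W) (ψ : W → Prop)
    (h : ∀ x y, Γ.Adj x y → s(x, y) ≠ s(v, w) → (ψ x ↔ ψ y)) (hv : ¬ ψ v) (hw : ψ w) :
    Γ.IsBridge s(v, w) := by
  rw [SimpleGraph.isBridge_iff]
  rintro ⟨p⟩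
  have : ∀ (x y : W) (q : (Γ.deleteEdges {s(v, w)}).Walk x y), ψ x ↔ ψ y := by
    intro x y q
    induction q with
    | nil => exact Iff.rfl
    | cons hadj _ ih =>
      rw [SimpleGraph.deleteEdges_adj] at hadj
      exact (h _ _ hadj.1 (fun e => hadj.2 (by simp [e]))).trans ih
  exact hv ((this v w p).2 hw)

theorem chi_shift (i j : Fin 3) (g h : F) (hne : ¬ (h = g ∧ j = i)) :
    chi i (gen j * h * g⁻¹) ↔ chi i (h * g⁻¹) := by
  rw [mul_assoc]
  refine chi_gen_mul i j _ fun hh => hne ⟨?_, hh.2⟩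
  exact mul_inv_eq_one.1 hh.1

theorem bridge_false (g : F) (i : Fin 3) :
    tree3.IsBridge s((Sum.inl g : T3), Sum.inr (g, i)) := by
  let ψ : T3 → Prop := fun y => match y with
    | Sum.inl h => chi i (h * g⁻¹)
    | Sum.inr (h, j) => chi i (gen j * h * g⁻¹)
  have key : ∀ (h k : F) (j : Fin 3), (h = k ∨ h = gen j * k) →
      s((Sum.inl h : T3), Sum.inr (k, j)) ≠ s((Sum.inl g : T3), Sum.inr (g, i)) →
      (ψ (Sum.inl h) ↔ ψ (Sum.inr (k, j))) := by
    intro h k j hk hne
    change chi i (h * g⁻¹) ↔ chi i (gen j * k * g⁻¹)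
    rcases hk with rfl | rfl
    · refine (chi_shift i j g h ?_).symm
      rintro ⟨rfl, rfl⟩
      exact hne rfl
    · exact Iff.rfl
  refine isBridge_of_pred tree3 _ _ ψ ?_ ?_ ?_
  · intro x y hxy hne
    rcases x with h | ⟨k, j⟩ <;> rcases y with h' | ⟨k', j'⟩
    · exact absurd hxy (tree3_adj_ll _ _)
    · exact key h k' j' ((tree3_adj_left _ _ _).1 hxy) hne
    · exact (key h' k j ((tree3_adj_right _ _ _).1 hxy) (by rwa [Sym2.eq_swap])).symm
    · exact absurd hxy (tree3_adj_rr _ _)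
  · change ¬ chi i (g * g⁻¹)
    rw [mul_inv_cancel]; exact not_chi_one i
  · change chi i (gen i * g * g⁻¹)
    rw [mul_inv_cancel_right]; exact chi_gen i

theorem bridge_true (g : F) (i : Fin 3) :
    tree3.IsBridge s((Sum.inr (g, i) : T3), Sum.inl (gen i * g)) := by
  let ψ : T3 → Prop := fun y => match y with
    | Sum.inl h => chi i (h * g⁻¹)
    | Sum.inr (h, j) => chi i (h * g⁻¹)
  have key : ∀ (h k : F) (j : Fin 3), (h = k ∨ h = gen j * k) →
      s((Sum.inr (k, j) : T3), Sum.inl h) ≠ s((Sum.inr (g, i) : T3), Sum.inl (gen i * g)) →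
      (ψ (Sum.inr (k, j)) ↔ ψ (Sum.inl h)) := by
    intro h k j hk hne
    change chi i (k * g⁻¹) ↔ chi i (h * g⁻¹)
    rcases hk with rfl | rfl
    · exact Iff.rfl
    · refine (chi_shift i j g k ?_).symm
      rintro ⟨rfl, rfl⟩
      exact hne rfl
  refine isBridge_of_pred tree3 _ _ ψ ?_ ?_ ?_
  · intro x y hxy hne
    rcases x with h | ⟨k, j⟩ <;> rcases y with h' | ⟨k', j'⟩
    · exact absurd hxy (tree3_adj_ll _ _)
    · exact (key h k' j' ((tree3_adj_left _ _ _).1 hxy) (by rwa [Sym2.eq_swap])).symm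
    · exact key h' k j ((tree3_adj_right _ _ _).1 hxy) hne
    · exact absurd hxy (tree3_adj_rr _ _)
  · change ¬ chi i (g * g⁻¹)
    rw [mul_inv_cancel]; exact not_chi_one i
  · change chi i (gen i * g * g⁻¹)
    rw [mul_inv_cancel_right]; exact chi_gen i

theorem tree3_isTree : tree3.IsTree := by
  refine { tree3_connected with isAcyclic := ?_ }
  rw [SimpleGraph.isAcyclic_iff_forall_adj_isBridge]
  have key : ∀ (h k : F) (j : Fin 3), (h = k ∨ h = gen j * k) →
      tree3.IsBridge s((Sum.inl h : T3), Sum.inr (k, j)) := by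
    intro h k j hk
    rcases hk with rfl | rfl
    · exact bridge_false h j
    · rw [Sym2.eq_swap]; exact bridge_true k j
  intro x y hxy
  rcases x with h | ⟨k, j⟩ <;> rcases y with h' | ⟨k', j'⟩
  · exact absurd hxy (tree3_adj_ll _ _)
  · exact key h k' j' ((tree3_adj_left _ _ _).1 hxy)
  · rw [Sym2.eq_swap]
    exact key h' k j ((tree3_adj_right _ _ _).1 hxy)
  · exact absurd hxy (tree3_adj_rr _ _)

/-- The universal cover of `star3`. -/
def cover3 : star3.UniversalCover where
  T := T3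
  tree := tree3
  isTree := tree3_isTree
  vert := vert3
  step := step3
  vert_step := by
    rintro (g | ⟨g, j⟩) ⟨⟨i, c⟩, o⟩ h <;> cases o <;> cases c <;>
      simp_all [Multigraph.src, Multigraph.tgt, star3, vert3, step3]
  step_rev := by
    rintro (g | ⟨g, j⟩) ⟨⟨i, c⟩, o⟩ h <;> cases o <;> cases c <;>
      simp_all [Multigraph.src, Multigraph.rev, star3, vert3, step3]
  step_inj := by
    rintro (g | ⟨g, j⟩) ⟨⟨i, c⟩, o⟩ ⟨⟨i', c'⟩, o'⟩ h h' he <;> cases o <;> cases c <;>
      cases o' <;> cases c' <;>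
      simp_all [Multigraph.src, star3, vert3, step3]
  adj_iff := by
    rintro (g | ⟨g, j⟩) (g' | ⟨g', j'⟩)
    · simp only [tree3_adj_ll, false_iff, not_exists]
      rintro ⟨⟨i, c⟩, o⟩ ⟨h1, h2⟩
      cases o <;> cases c <;> simp_all [Multigraph.src, star3, vert3, step3]
    · rw [tree3_adj_left]
      constructor
      · rintro (rfl | rfl)
        · exact ⟨((j', false), true), rfl, rfl⟩
        · exact ⟨((j', true), true), rfl, by simp [step3]⟩
      · rintro ⟨⟨⟨i, c⟩, o⟩, h1, h2⟩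
        cases o <;> cases c <;> simp_all [Multigraph.src, star3, vert3, step3]
        all_goals
          obtain ⟨h2, h3⟩ := h2
          subst h3
          right
          rw [← h2]
          exact (mul_inv_cancel_left (gen i) g).symm
    · rw [tree3_adj_right]
      constructor
      · rintro (rfl | rfl)
        · exact ⟨((j, false), false), rfl, rfl⟩
        · exact ⟨((j, true), false), rfl, rfl⟩
      · rintro ⟨⟨⟨i, c⟩, o⟩, h1, h2⟩
        cases o <;> cases c <;> simp_all [Multigraph.src, star3, vert3, step3]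
    · simp only [tree3_adj_rr, false_iff, not_exists]
      rintro ⟨⟨i, c⟩, o⟩ ⟨h1, h2⟩
      cases o <;> cases c <;> simp_all [Multigraph.src, star3, vert3, step3]
  lift x := match x with
    | none => Sum.inl 1
    | some i => Sum.inr (1, i)
  vert_lift := by
    rintro (_ | i) <;> rfl

end

section

open scoped ComplexConjugate ENNReal InnerProductSpace

open Multigraph

/-- Parameters of a Jacobi matrix on `star3`. -/
abbrev Par : Type := (Option (Fin 3) → ℝ) × (Fin 3 × Bool → ℝ)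

/-- The lift of `J` for the graph `star3`. -/
noncomputable def H3 (J : Par) : L2 T3 →L[ℂ] L2 T3 := op cover3 J

theorem H3_inner (J : Par) (u w : L2 T3) : ⟪H3 J u, w⟫_ℂ = ⟪u, H3 J w⟫_ℂ :=
  op_inner cover3 J u w

theorem H3_inl (J : Par) (u : L2 T3) (g : F) :
    H3 J u (Sum.inl g) = (J.1 none : ℂ) * u (Sum.inl g) +
      ∑ i, ((J.2 (i, false) : ℂ) * u (Sum.inr (g, i)) +
        (J.2 (i, true) : ℂ) * u (Sum.inr ((gen i)⁻¹ * g, i))) := by
  refine (op_apply cover3 J u (Sum.inl g : T3)).trans ?_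
  unfold act
  congr 1
  rw [Fintype.sum_prod_type]
  simp only [Fintype.sum_bool]
  rw [Fintype.sum_prod_type]
  simp only [Fintype.sum_bool]
  refine Finset.sum_congr rfl fun i _ => ?_
  simp [cover3, vert3, step3, Multigraph.src, star3]
  ring

theorem H3_inr (J : Par) (u : L2 T3) (g : F) (i : Fin 3) :
    H3 J u (Sum.inr (g, i)) = (J.1 (some i) : ℂ) * u (Sum.inr (g, i)) +
      ((J.2 (i, false) : ℂ) * u (Sum.inl g) + (J.2 (i, true) : ℂ) * u (Sum.inl (gen i * g))) := by
  refine (op_apply cover3 J u (Sum.inr (g, i) : T3)).trans ?_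
  unfold act
  congr 1
  rw [Fintype.sum_prod_type]
  simp only [Fintype.sum_bool]
  rw [Fintype.sum_prod_type]
  simp only [Fintype.sum_bool]
  rw [Finset.sum_eq_single i]
  · simp [cover3, vert3, step3, Multigraph.src, star3]
    ring
  · intro j _ hj
    simp [cover3, vert3, step3, Multigraph.src, star3, hj]
  · simp

/-- Supported on the vertices over the centre. -/
def LSupp (u : L2 T3) : Prop := ∀ p, u (Sum.inr p) = 0

/-- `R = ∑ (a_i² + a_i'²)` -/
noncomputable def RR (J : Par) : ℝ := ∑ i, (J.2 (i, false) ^ 2 + J.2 (i, true) ^ 2)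

/-- `A_i = a_i a_i'` -/
noncomputable def AA (J : Par) (i : Fin 3) : ℝ := J.2 (i, false) * J.2 (i, true)

theorem H3_sq_inl (J : Par) (hb : J.1 = 0) (u : L2 T3) (g : F) :
    (H3 J * H3 J) u (Sum.inl g) = (RR J : ℂ) * u (Sum.inl g) +
      ∑ i, (AA J i : ℂ) * (u (Sum.inl (gen i * g)) + u (Sum.inl ((gen i)⁻¹ * g))) := by
  have h0 : J.1 none = 0 := by rw [hb]; rfl
  have hs : ∀ i, J.1 (some i) = 0 := fun i => by rw [hb]; rfl
  change H3 J (H3 J u) (Sum.inl g) = _
  rw [H3_inl]
  simp only [H3_inr, h0, hs, RR, AA]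
  push_cast
  rw [Finset.sum_mul, ← Finset.sum_add_distrib]
  simp only [zero_mul, zero_add, mul_inv_cancel_left]
  refine Finset.sum_congr rfl fun i _ => ?_
  ring

theorem H3_lsupp (J : Par) (hb : J.1 = 0) (u : L2 T3) (hu : LSupp u) (g : F) :
    H3 J u (Sum.inl g) = 0 := by
  have h0 : J.1 none = 0 := by rw [hb]; rfl
  rw [H3_inl]
  simp [h0, hu _]

theorem H3_sq_lsupp (J : Par) (hb : J.1 = 0) (u : L2 T3) (hu : LSupp u) :
    LSupp ((H3 J * H3 J) u) := by
  have hs : ∀ i, J.1 (some i) = 0 := fun i => by rw [hb]; rfl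
  rintro ⟨g, i⟩
  change H3 J (H3 J u) (Sum.inr (g, i)) = 0
  rw [H3_inr]
  simp only [H3_lsupp J hb u hu, hs]
  simp

open Classical in
/-- Matrix elements of powers of `R + ∑ A_i (U_i + U_i⁻¹)`. -/
noncomputable def en (R : ℝ) (A : Fin 3 → ℝ) : ℕ → F → ℝ
  | 0, g => if g = 1 then 1 else 0
  | n + 1, g => R * en R A n g + ∑ i, A i * (en R A n (gen i * g) + en R A n ((gen i)⁻¹ * g))

theorem pow_lsupp (J : Par) (hb : J.1 = 0) (u : L2 T3) (hu : LSupp u) (n : ℕ) :
    LSupp (((H3 J * H3 J) ^ n) u) := by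
  induction n with
  | zero => simpa using hu
  | succ n ih =>
    rw [pow_succ']
    exact H3_sq_lsupp J hb _ ih

theorem lsupp_delta (h : F) : LSupp (delta (Sum.inl h : T3)) := by
  intro p
  exact delta_apply_ne _ _ (by simp)

theorem pow_delta (J : Par) (hb : J.1 = 0) (n : ℕ) (h g : F) :
    ((H3 J * H3 J) ^ n) (delta (Sum.inl h)) (Sum.inl g) = (en (RR J) (AA J) n (g * h⁻¹) : ℂ) := by
  classical
  induction n generalizing g with
  | zero =>
    simp only [pow_zero, en]
    change delta (Sum.inl h : T3) (Sum.inl g) = _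
    rw [delta_apply]
    by_cases hg : g = h
    · subst hg; simp
    · have : g * h⁻¹ ≠ 1 := fun e => hg (mul_inv_eq_one.1 e)
      simp [hg, this]
  | succ n ih =>
    rw [pow_succ']
    change (H3 J * H3 J) (((H3 J * H3 J) ^ n) (delta (Sum.inl h))) (Sum.inl g) = _
    rw [H3_sq_inl J hb]
    simp only [ih, en]
    push_cast
    simp only [mul_assoc]

theorem H3_delta_inr (J : Par) (hb : J.1 = 0) (i : Fin 3) :
    H3 J (delta (Sum.inr (1, i))) =
      (J.2 (i, false) : ℂ) • delta (Sum.inl 1) + (J.2 (i, true) : ℂ) • delta (Sum.inl (gen i)) := by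
  classical
  have h0 : J.1 none = 0 := by rw [hb]; rfl
  have hs : ∀ i, J.1 (some i) = 0 := fun i => by rw [hb]; rfl
  ext y
  rw [lp.coeFn_add, Pi.add_apply, lp.coeFn_smul, Pi.smul_apply, lp.coeFn_smul, Pi.smul_apply]
  rcases y with g | ⟨g, j⟩
  · rw [H3_inl, h0]
    simp only [delta_apply, Sum.inr.injEq, Sum.inl.injEq, Prod.mk.injEq, smul_eq_mul, reduceCtorEq,
      if_false]
    rw [Finset.sum_eq_single i]
    · have : (gen i)⁻¹ * g = 1 ↔ g = gen i := by
        rw [inv_mul_eq_one]; exact eq_comm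
      simp [this]
    · intro j _ hj
      simp [hj]
    · simp
  · rw [H3_inr, hs]
    simp [delta_apply]

/-- The first vertex summand of the trace. -/
theorem inner_pow_inl (J : Par) (hb : J.1 = 0) (n : ℕ) :
    ⟪delta (Sum.inl 1 : T3), ((H3 J * H3 J) ^ n) (delta (Sum.inl 1))⟫_ℂ =
      (en (RR J) (AA J) n 1 : ℂ) := by
  rw [inner_delta_left, pow_delta J hb]
  simp

theorem sum_inner_pow_inr (J : Par) (hb : J.1 = 0) (n : ℕ) :
    ∑ i : Fin 3, ⟪delta (Sum.inr (1, i) : T3), ((H3 J * H3 J) ^ (n + 1)) (delta (Sum.inr (1, i)))⟫_ℂ =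
      (en (RR J) (AA J) (n + 1) 1 : ℂ) := by
  have h1 : ∀ i : Fin 3,
      ⟪delta (Sum.inr (1, i) : T3), ((H3 J * H3 J) ^ (n + 1)) (delta (Sum.inr (1, i)))⟫_ℂ =
      ((J.2 (i, false) ^ 2 + J.2 (i, true) ^ 2 : ℝ) : ℂ) * (en (RR J) (AA J) n 1 : ℂ) +
        (AA J i : ℂ) * ((en (RR J) (AA J) n (gen i) : ℂ) +
          (en (RR J) (AA J) n (gen i)⁻¹ : ℂ)) := by
    intro i
    have e1 : ((H3 J * H3 J) ^ (n + 1)) (delta (Sum.inr (1, i))) =
        H3 J (((H3 J * H3 J) ^ n) (H3 J (delta (Sum.inr (1, i))))) := by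
      have hc : Commute (H3 J) ((H3 J * H3 J) ^ n) :=
        (((Commute.refl (H3 J)).mul_right (Commute.refl (H3 J))).pow_right n)
      have : (H3 J * H3 J) ^ (n + 1) = H3 J * ((H3 J * H3 J) ^ n * H3 J) := by
        rw [← hc.eq, ← mul_assoc, pow_succ']
      rw [this]; rfl
    rw [e1, ← H3_inner, H3_delta_inr J hb i, map_add, map_smul, map_smul]
    simp only [inner_add_left, inner_add_right, inner_smul_left, inner_smul_right,
      inner_delta_left, pow_delta J hb, Complex.conj_ofReal, AA]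
    simp
    ring
  simp only [h1]
  rw [Finset.sum_add_distrib, ← Finset.sum_mul]
  simp only [en, RR]
  push_cast
  simp

end

section

open scoped ComplexConjugate ENNReal InnerProductSpace

open Multigraph

/-- Trace over the fundamental set `{inl 1, inr (1, i)}`. -/
noncomputable def tr3 (K : L2 T3 →L[ℂ] L2 T3) : ℝ :=
  (⟪delta (Sum.inl 1 : T3), K (delta (Sum.inl 1))⟫_ℂ).re +
    ∑ i : Fin 3, (⟪delta (Sum.inr (1, i) : T3), K (delta (Sum.inr (1, i)))⟫_ℂ).re

theorem tr_eq_tr3 (K : L2 T3 →L[ℂ] L2 T3) : tr cover3 K = tr3 K := by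
  unfold tr tr3
  rw [Fintype.sum_option]
  rfl

theorem pow_two_mul (J : Par) (n : ℕ) : H3 J ^ (2 * n) = (H3 J * H3 J) ^ n := by
  rw [pow_mul, pow_two]

theorem tr3_even (J : Par) (hb : J.1 = 0) (n : ℕ) :
    tr3 (H3 J ^ (2 * (n + 1))) = 2 * en (RR J) (AA J) (n + 1) 1 := by
  unfold tr3
  rw [pow_two_mul, inner_pow_inl J hb, ← Complex.re_sum, sum_inner_pow_inr J hb,
    Complex.ofReal_re]
  ring

theorem tr3_odd (J : Par) (hb : J.1 = 0) (n : ℕ) : tr3 (H3 J ^ (2 * n + 1)) = 0 := by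
  have hs : ∀ i, J.1 (some i) = 0 := fun i => by rw [hb]; rfl
  unfold tr3
  have h1 : ⟪delta (Sum.inl 1 : T3), (H3 J ^ (2 * n + 1)) (delta (Sum.inl 1))⟫_ℂ = 0 := by
    rw [inner_delta_left, pow_succ', pow_two_mul]
    exact H3_lsupp J hb _ (pow_lsupp J hb _ (lsupp_delta 1) n) 1
  have h2 : ∀ i : Fin 3,
      ⟪delta (Sum.inr (1, i) : T3), (H3 J ^ (2 * n + 1)) (delta (Sum.inr (1, i)))⟫_ℂ = 0 := by
    intro i
    rw [inner_delta_left, pow_succ, pow_two_mul]
    refine pow_lsupp J hb _ ?_ n (1, i)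
    rintro ⟨g, j⟩
    refine (H3_inr J (delta (Sum.inr (1, i))) g j).trans ?_
    rw [hs]
    simp [delta_apply]
  rw [h1]
  simp only [h2]
  simp

/-- Moments depend only on `R` and the `A_i` when `b = 0`. -/
theorem moments_eq (J J' : Par) (hb : J.1 = 0) (hb' : J'.1 = 0) (hR : RR J = RR J')
    (hA : AA J = AA J') (n : ℕ) : tr3 (H3 J ^ n) = tr3 (H3 J' ^ n) := by
  rcases Nat.even_or_odd' n with ⟨m, rfl | rfl⟩
  · rcases m with _ | m
    · simp
    · rw [tr3_even J hb, tr3_even J' hb', hR, hA]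
  · rw [tr3_odd J hb, tr3_odd J' hb']

/-- The difference of the two halves of the trace. -/
noncomputable def dd (K : L2 T3 →L[ℂ] L2 T3) : ℝ :=
  ∑ i : Fin 3, (⟪delta (Sum.inr (1, i) : T3), K (delta (Sum.inr (1, i)))⟫_ℂ).re -
    (⟪delta (Sum.inl 1 : T3), K (delta (Sum.inl 1))⟫_ℂ).re

theorem dd_sub (K L : L2 T3 →L[ℂ] L2 T3) : dd (K - L) = dd K - dd L := by
  unfold dd
  simp only [sub_apply, inner_sub_right, Complex.sub_re, Finset.sum_sub_distrib]
  ring

theorem dd_smul (c : ℝ) (K : L2 T3 →L[ℂ] L2 T3) : dd ((c : ℂ) • K) = c * dd K := by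
  unfold dd
  simp only [smul_apply, inner_smul_right, Complex.re_ofReal_mul, ← Finset.mul_sum]
  ring

theorem dd_pow (J : Par) (hb : J.1 = 0) (m : ℕ) :
    dd ((H3 J * H3 J) ^ m) = if m = 0 then 2 else 0 := by
  rcases m with _ | m
  · simp only [pow_zero, dd]
    have : ∀ y : T3, ⟪delta y, (1 : L2 T3 →L[ℂ] L2 T3) (delta y)⟫_ℂ = 1 := by
      intro y
      rw [one_apply_eq_self, inner_delta_left, delta_apply_self]
    simp only [this]
    norm_num
  · rw [dd, inner_pow_inl J hb, ← Complex.re_sum, sum_inner_pow_inr J hb]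
    simp

/-- `S = 1 - c H²` -/
noncomputable def SS (c : ℝ) (J : Par) : L2 T3 →L[ℂ] L2 T3 := 1 - (c : ℂ) • (H3 J * H3 J)

theorem dd_SS (J : Par) (hb : J.1 = 0) (c : ℝ) (n m : ℕ) :
    dd (SS c J ^ n * (H3 J * H3 J) ^ m) = if m = 0 then 2 else 0 := by
  induction n generalizing m with
  | zero => rw [pow_zero, one_mul]; exact dd_pow J hb m
  | succ n ih =>
    have e : SS c J ^ (n + 1) * (H3 J * H3 J) ^ m =
        SS c J ^ n * (H3 J * H3 J) ^ m - (c : ℂ) • (SS c J ^ n * (H3 J * H3 J) ^ (m + 1)) := by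
      rw [pow_succ (SS c J), pow_succ' (H3 J * H3 J), SS]
      simp only [mul_sub, sub_mul, mul_one, mul_assoc, smul_mul_assoc, mul_smul_comm]
    rw [e, dd_sub, dd_smul, ih, ih]
    simp

theorem SS_inner (c : ℝ) (J : Par) (u w : L2 T3) : ⟪SS c J u, w⟫_ℂ = ⟪u, SS c J w⟫_ℂ := by
  unfold SS
  simp only [sub_apply, smul_apply, inner_sub_left, inner_sub_right, inner_smul_left,
    inner_smul_right, Complex.conj_ofReal, one_apply_eq_self]
  congr 2
  change ⟪H3 J (H3 J u), w⟫_ℂ = ⟪u, H3 J (H3 J w)⟫_ℂ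
  rw [H3_inner, H3_inner]

theorem SS_inner_self (c : ℝ) (J : Par) (u : L2 T3) :
    (⟪u, SS c J u⟫_ℂ).re = ‖u‖ ^ 2 - c * ‖H3 J u‖ ^ 2 := by
  unfold SS
  simp only [sub_apply, smul_apply, inner_sub_right, inner_smul_right,
    one_apply_eq_self, Complex.sub_re, Complex.re_ofReal_mul]
  have h1 : (⟪u, u⟫_ℂ).re = ‖u‖ ^ 2 := by
    have := inner_self_eq_norm_sq_to_K (𝕜 := ℂ) u
    rw [this]
    norm_cast
  have h2 : (⟪u, (H3 J * H3 J) u⟫_ℂ).re = ‖H3 J u‖ ^ 2 := by
    change (⟪u, H3 J (H3 J u)⟫_ℂ).re = _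
    rw [← H3_inner]
    have := inner_self_eq_norm_sq_to_K (𝕜 := ℂ) (H3 J u)
    rw [this]
    norm_cast
  rw [h1, h2]

theorem SS_nonneg (c : ℝ) (hc : 0 ≤ c) (J : Par) (hcJ : c * ‖H3 J‖ ^ 2 ≤ 1) (u : L2 T3) :
    0 ≤ (⟪u, SS c J u⟫_ℂ).re := by
  rw [SS_inner_self]
  have h1 : ‖H3 J u‖ ≤ ‖H3 J‖ * ‖u‖ := (H3 J).le_opNorm u
  have h2 : ‖H3 J u‖ ^ 2 ≤ (‖H3 J‖ * ‖u‖) ^ 2 := by
    exact pow_le_pow_left₀ (norm_nonneg _) h1 2
  have h3 : c * ‖H3 J u‖ ^ 2 ≤ 1 * ‖u‖ ^ 2 := by
    calc c * ‖H3 J u‖ ^ 2 ≤ c * (‖H3 J‖ * ‖u‖) ^ 2 := mul_le_mul_of_nonneg_left h2 hc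
      _ = (c * ‖H3 J‖ ^ 2) * ‖u‖ ^ 2 := by ring
      _ ≤ 1 * ‖u‖ ^ 2 := mul_le_mul_of_nonneg_right hcJ (by positivity)
  linarith

theorem SS_pow_inner (c : ℝ) (J : Par) (n : ℕ) (u w : L2 T3) :
    ⟪(SS c J ^ n) u, w⟫_ℂ = ⟪u, (SS c J ^ n) w⟫_ℂ := by
  induction n generalizing u w with
  | zero => simp
  | succ n ih =>
    have e1 : (SS c J ^ (n + 1)) u = SS c J ((SS c J ^ n) u) := by rw [pow_succ']; rfl
    have e2 : (SS c J ^ (n + 1)) w = (SS c J ^ n) (SS c J w) := by rw [pow_succ]; rfl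
    rw [e1, e2, SS_inner, ih]

theorem SS_pow_nonneg (c : ℝ) (hc : 0 ≤ c) (J : Par) (hcJ : c * ‖H3 J‖ ^ 2 ≤ 1) (n : ℕ)
    (u : L2 T3) : 0 ≤ (⟪u, (SS c J ^ n) u⟫_ℂ).re := by
  rcases Nat.even_or_odd' n with ⟨m, rfl | rfl⟩
  · have : (SS c J ^ (2 * m)) u = (SS c J ^ m) ((SS c J ^ m) u) := by
      rw [two_mul, pow_add]; rfl
    rw [this, ← SS_pow_inner]
    exact inner_self_nonneg (𝕜 := ℂ)
  · have : (SS c J ^ (2 * m + 1)) u = (SS c J ^ m) (SS c J ((SS c J ^ m) u)) := by
      rw [two_mul, add_assoc, pow_add, pow_succ']; rfl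
    rw [this, ← SS_pow_inner]
    exact SS_nonneg c hc J hcJ _

theorem tr3_SS_ge (J : Par) (hb : J.1 = 0) (c : ℝ) (hc : 0 ≤ c) (hcJ : c * ‖H3 J‖ ^ 2 ≤ 1)
    (n : ℕ) : 2 ≤ tr3 (SS c J ^ n) := by
  have h1 := dd_SS J hb c n 0
  rw [pow_zero, mul_one, if_pos rfl] at h1
  have h2 := SS_pow_nonneg c hc J hcJ n (delta (Sum.inl 1))
  unfold dd at h1
  unfold tr3
  linarith

/-- `‖S‖ ≤ 1`. -/
theorem norm_SS_le (c : ℝ) (hc : 0 ≤ c) (J : Par) (hcJ : c * ‖H3 J‖ ^ 2 ≤ 1) : ‖SS c J‖ ≤ 1 := by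
  refine ContinuousLinearMap.opNorm_le_bound _ zero_le_one fun u => ?_
  rw [one_mul]
  -- `‖S u‖² = ⟨u, S² u⟩ ≤ ⟨u, S u⟩ ≤ ‖u‖²`
  have h1 : ‖SS c J u‖ ^ 2 ≤ (⟪u, SS c J u⟫_ℂ).re := by
    have e : SS c J u = u - (c : ℂ) • H3 J (H3 J u) := rfl
    have e2 : ‖SS c J u‖ ^ 2 = (⟪u, SS c J u⟫_ℂ).re - (c * (⟪H3 J (H3 J u), SS c J u⟫_ℂ).re) := by
      have h3 : (⟪SS c J u, SS c J u⟫_ℂ).re = ‖SS c J u‖ ^ 2 := by
        have := inner_self_eq_norm_sq_to_K (𝕜 := ℂ) (SS c J u)
        rw [this]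
        norm_cast
      rw [← h3]
      conv_lhs => rw [e]
      rw [inner_sub_left, inner_smul_left, Complex.conj_ofReal, Complex.sub_re,
        Complex.re_ofReal_mul, ← e]
    have h4 : (⟪H3 J (H3 J u), SS c J u⟫_ℂ).re = (⟪H3 J u, SS c J (H3 J u)⟫_ℂ).re := by
      rw [H3_inner]
      congr 2
      unfold SS
      simp only [sub_apply, smul_apply, one_apply_eq_self, map_sub, map_smul]
      rfl
    rw [e2, h4]
    have := mul_nonneg hc (SS_nonneg c hc J hcJ (H3 J u))
    linarith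
  have h2 : (⟪u, SS c J u⟫_ℂ).re ≤ ‖u‖ ^ 2 := by
    rw [SS_inner_self]
    have : 0 ≤ c * ‖H3 J u‖ ^ 2 := by positivity
    linarith
  exact (pow_le_pow_iff_left₀ (norm_nonneg _) (norm_nonneg _) two_ne_zero).1 (h1.trans h2)

end

section

open scoped ComplexConjugate ENNReal InnerProductSpace Topology
open Filter

open Multigraph

theorem summable_inl (u : L2 T3) : Summable fun g : F => ‖u (Sum.inl g)‖ ^ 2 := by
  have h : Summable (fun y => ‖u y‖ ^ 2) := by
    have := (lp.memℓp u).summable (by norm_num)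
    simpa using this
  exact h.comp_injective Sum.inl_injective

theorem geom_aux (v : F → ℂ) (hv : Summable fun g => ‖v g‖ ^ 2) (s : F)
    (hs : Function.Injective fun n : ℕ => s ^ n) (h : ∀ g, ‖v g‖ ≤ ‖v (s * g)‖) (g : F) :
    v g = 0 := by
  have h1 : ∀ n : ℕ, ‖v g‖ ≤ ‖v (s ^ n * g)‖ := by
    intro n
    induction n with
    | zero => simp
    | succ n ih =>
      rw [pow_succ', mul_assoc]
      exact ih.trans (h _)
  have h2 : Summable fun n : ℕ => ‖v (s ^ n * g)‖ ^ 2 := by
    refine hv.comp_injective (i := fun n : ℕ => s ^ n * g) ?_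
    intro a b hab
    exact hs (mul_right_cancel hab)
  have h3 : Tendsto (fun n : ℕ => ‖v (s ^ n * g)‖ ^ 2) atTop (𝓝 0) := h2.tendsto_atTop_zero
  have h4 : ‖v g‖ ^ 2 ≤ 0 := by
    refine ge_of_tendsto' h3 fun n => ?_
    exact pow_le_pow_left₀ (norm_nonneg _) (h1 n) 2
  have h5 : ‖v g‖ = 0 := by
    have := sq_nonneg ‖v g‖
    exact pow_eq_zero_iff two_ne_zero |>.1 (le_antisymm h4 this)
  exact norm_eq_zero.1 h5

theorem gen_pow_injective (i : Fin 3) : Function.Injective fun n : ℕ => gen i ^ n := by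
  intro a b h
  have := congrArg FreeGroup.norm h
  simpa [FreeGroup.norm_of_pow] using this

theorem gen_inv_pow_injective (i : Fin 3) : Function.Injective fun n : ℕ => ((gen i)⁻¹) ^ n := by
  intro a b h
  simp only [inv_pow, inv_inj] at h
  exact gen_pow_injective i h

theorem geom (i : Fin 3) (v : F → ℂ) (hv : Summable fun g => ‖v g‖ ^ 2) (x y : ℝ) (hx : 0 < x)
    (hy : 0 < y) (h : ∀ g, (x : ℂ) * v g + (y : ℂ) * v (gen i * g) = 0) (g : F) : v g = 0 := by
  have h1 : ∀ g, x * ‖v g‖ = y * ‖v (gen i * g)‖ := by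
    intro g
    have := eq_neg_of_add_eq_zero_left (h g)
    have := congrArg norm this
    rwa [norm_neg, norm_mul, norm_mul, Complex.norm_real, Complex.norm_real,
      Real.norm_of_nonneg hx.le, Real.norm_of_nonneg hy.le] at this
  rcases le_total y x with hxy | hxy
  · refine geom_aux v hv (gen i) (gen_pow_injective i) (fun g => ?_) g
    have h2 := h1 g
    have h3 : y * ‖v g‖ ≤ y * ‖v (gen i * g)‖ := by
      rw [← h2]
      exact mul_le_mul_of_nonneg_right hxy (norm_nonneg _)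
    exact le_of_mul_le_mul_left h3 hy
  · refine geom_aux v hv (gen i)⁻¹ (gen_inv_pow_injective i) (fun g => ?_) g
    have h2 := h1 ((gen i)⁻¹ * g)
    rw [mul_inv_cancel_left] at h2
    have h3 : x * ‖v g‖ ≤ x * ‖v ((gen i)⁻¹ * g)‖ := by
      rw [h2]
      exact mul_le_mul_of_nonneg_right hxy (norm_nonneg _)
    exact le_of_mul_le_mul_left h3 hx

/-- Kernel vectors vanish on the vertices over the centre. -/
theorem kernel_inl (J : Par) (ha : ∀ e, 0 < J.2 e) (u : L2 T3) (hu : H3 J u = 0) (g : F) :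
    u (Sum.inl g) = 0 := by
  have hr : ∀ g i, (J.1 (some i) : ℂ) * u (Sum.inr (g, i)) +
      ((J.2 (i, false) : ℂ) * u (Sum.inl g) + (J.2 (i, true) : ℂ) * u (Sum.inl (gen i * g))) = 0 := by
    intro g i
    rw [← H3_inr, hu]; rfl
  have hl : ∀ g, (J.1 none : ℂ) * u (Sum.inl g) +
      ∑ i, ((J.2 (i, false) : ℂ) * u (Sum.inr (g, i)) +
        (J.2 (i, true) : ℂ) * u (Sum.inr ((gen i)⁻¹ * g, i))) = 0 := by
    intro g
    rw [← H3_inl, hu]; rfl
  by_cases hb : ∃ i, J.1 (some i) = 0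
  · obtain ⟨i, hi⟩ := hb
    refine geom i (fun g => u (Sum.inl g)) (summable_inl u) _ _ (ha (i, false)) (ha (i, true))
      (fun g => ?_) g
    have := hr g i
    rw [hi] at this
    simpa using this
  · push Not at hb
    have hb' : ∀ i, (J.1 (some i) : ℂ) ≠ 0 := fun i => by exact_mod_cast hb i
    refine no_kernel
      ((J.1 none : ℂ) - ∑ i, ((J.2 (i, false) : ℂ) ^ 2 + (J.2 (i, true) : ℂ) ^ 2) / J.1 (some i))
      (fun i => ((J.2 (i, false) : ℂ) * (J.2 (i, true) : ℂ)) / J.1 (some i)) ?_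
      (fun g => u (Sum.inl g)) (summable_inl u) ?_ g
    · intro i
      have h1 : (J.2 (i, false) : ℂ) ≠ 0 := by exact_mod_cast (ha _).ne'
      have h2 : (J.2 (i, true) : ℂ) ≠ 0 := by exact_mod_cast (ha _).ne'
      exact div_ne_zero (mul_ne_zero h1 h2) (hb' i)
    · intro g
      have h3 : ∀ g i, u (Sum.inr (g, i)) = - ((J.2 (i, false) : ℂ) * u (Sum.inl g) +
          (J.2 (i, true) : ℂ) * u (Sum.inl (gen i * g))) / J.1 (some i) := by
        intro g i
        rw [eq_div_iff (hb' i)]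
        linear_combination hr g i
      have h4 := hl g
      simp only [h3, mul_inv_cancel_left] at h4
      rw [sub_mul, Finset.sum_mul]
      have h5 : ∑ i, ((J.2 (i, false) : ℂ) * (-((J.2 (i, false) : ℂ) * u (Sum.inl g) +
          (J.2 (i, true) : ℂ) * u (Sum.inl (gen i * g))) / J.1 (some i)) +
          (J.2 (i, true) : ℂ) * (-((J.2 (i, false) : ℂ) * u (Sum.inl ((gen i)⁻¹ * g)) +
          (J.2 (i, true) : ℂ) * u (Sum.inl g)) / J.1 (some i))) =
          - (∑ i, (((J.2 (i, false) : ℂ) ^ 2 + (J.2 (i, true) : ℂ) ^ 2) / J.1 (some i)) *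
            u (Sum.inl g)) -
          ∑ i, ((J.2 (i, false) : ℂ) * (J.2 (i, true) : ℂ)) / J.1 (some i) *
            (u (Sum.inl (gen i * g)) + u (Sum.inl ((gen i)⁻¹ * g))) := by
        rw [← Finset.sum_neg_distrib, ← Finset.sum_sub_distrib]
        refine Finset.sum_congr rfl fun i _ => ?_
        ring
      rw [h5] at h4
      linear_combination h4

/-- Kernel vectors vanish on `inr (g, j)` when `b_j ≠ 0`. -/
theorem kernel_inr (J : Par) (ha : ∀ e, 0 < J.2 e) (u : L2 T3) (hu : H3 J u = 0) (g : F)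
    (j : Fin 3) (hj : J.1 (some j) ≠ 0) : u (Sum.inr (g, j)) = 0 := by
  have h := H3_inr J u g j
  rw [hu, kernel_inl J ha u hu, kernel_inl J ha u hu] at h
  have h' : (J.1 (some j) : ℂ) * u (Sum.inr (g, j)) = 0 := by
    have h0 : (0 : L2 T3) (Sum.inr (g, j)) = 0 := rfl
    rw [h0] at h
    simpa using h.symm
  have hb' : (J.1 (some j) : ℂ) ≠ 0 := by exact_mod_cast hj
  exact (mul_eq_zero.1 h').resolve_left hb'

theorem tr3_sub (K L : L2 T3 →L[ℂ] L2 T3) : tr3 (K - L) = tr3 K - tr3 L := by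
  unfold tr3
  simp only [sub_apply, inner_sub_right, Complex.sub_re, Finset.sum_sub_distrib]
  ring

theorem tr3_smul (c : ℝ) (K : L2 T3 →L[ℂ] L2 T3) : tr3 ((c : ℂ) • K) = c * tr3 K := by
  unfold tr3
  simp only [smul_apply, inner_smul_right, Complex.re_ofReal_mul, ← Finset.mul_sum]
  ring

theorem tr3_SS_eq (J J₀ : Par) (c : ℝ) (hm : ∀ n, tr3 (H3 J ^ n) = tr3 (H3 J₀ ^ n)) (n m : ℕ) :
    tr3 (SS c J ^ n * (H3 J * H3 J) ^ m) = tr3 (SS c J₀ ^ n * (H3 J₀ * H3 J₀) ^ m) := by
  induction n generalizing m with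
  | zero => rw [pow_zero, pow_zero, one_mul, one_mul, ← pow_two_mul, ← pow_two_mul, hm]
  | succ n ih =>
    have e : ∀ J : Par, SS c J ^ (n + 1) * (H3 J * H3 J) ^ m =
        SS c J ^ n * (H3 J * H3 J) ^ m - (c : ℂ) • (SS c J ^ n * (H3 J * H3 J) ^ (m + 1)) := by
      intro J
      rw [pow_succ (SS c J), pow_succ' (H3 J * H3 J), SS]
      simp only [mul_sub, sub_mul, mul_one, mul_assoc, smul_mul_assoc, mul_smul_comm]
    rw [e, e, tr3_sub, tr3_sub, tr3_smul, tr3_smul, ih, ih]

end

section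

open scoped ComplexConjugate ENNReal InnerProductSpace Topology
open Filter

open Multigraph

theorem exists_limit {𝓗 : Type} [NormedAddCommGroup 𝓗] [InnerProductSpace ℂ 𝓗] [CompleteSpace 𝓗]
    (S : 𝓗 →L[ℂ] 𝓗) (hS : ‖S‖ ≤ 1) (x : 𝓗) :
    ∃ p : 𝓗, S p = p ∧ ‖p‖ ^ 2 = (⟪x, p⟫_ℂ).re ∧
      Tendsto (fun N : ℕ => (N : ℂ)⁻¹ • ∑ n ∈ Finset.range N, (S ^ n) x) atTop (𝓝 p) := by
  have h1 := S.tendsto_birkhoffAverage_orthogonalProjection hS x
  refine ⟨_, ?_, ?_, h1.congr fun N => ?_⟩
  · have := ((S.eqLocus (1 : 𝓗 →L[ℂ] 𝓗)).orthogonalProjectionOnto x).2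
    exact this
  · have h2 := (S.eqLocus (1 : 𝓗 →L[ℂ] 𝓗)).starProjection_inner_eq_zero x _
      ((S.eqLocus (1 : 𝓗 →L[ℂ] 𝓗)).orthogonalProjectionOnto x).2
    rw [inner_sub_left, sub_eq_zero] at h2
    rw [h2]
    have := inner_self_eq_norm_sq_to_K (𝕜 := ℂ)
      ((S.eqLocus (1 : 𝓗 →L[ℂ] 𝓗)).orthogonalProjectionOnto x : 𝓗)
    erw [this]
    norm_cast
  · unfold birkhoffAverage birkhoffSum
    congr 1
    refine Finset.sum_congr rfl fun n _ => ?_
    simp

theorem SS_fixed (c : ℝ) (hc : 0 < c) (J : Par) (p : L2 T3) (hp : SS c J p = p) :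
    H3 J p = 0 := by
  have h1 := SS_inner_self c J p
  rw [hp] at h1
  have h2 : (⟪p, p⟫_ℂ).re = ‖p‖ ^ 2 := by
    have := inner_self_eq_norm_sq_to_K (𝕜 := ℂ) p
    rw [this]
    norm_cast
  rw [h2] at h1
  have h3 : c * ‖H3 J p‖ ^ 2 = 0 := by linarith
  have h4 : ‖H3 J p‖ ^ 2 = 0 := (mul_eq_zero.1 h3).resolve_left hc.ne'
  exact norm_eq_zero.1 (pow_eq_zero_iff two_ne_zero |>.1 h4)

theorem re_inner_avg (S : L2 T3 →L[ℂ] L2 T3) (N : ℕ) (y : T3) :
    (⟪delta y, (N : ℂ)⁻¹ • ∑ n ∈ Finset.range N, (S ^ n) (delta y)⟫_ℂ).re =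
      (N : ℝ)⁻¹ * ∑ n ∈ Finset.range N, (⟪delta y, (S ^ n) (delta y)⟫_ℂ).re := by
  rw [inner_smul_right, inner_sum]
  have : ((N : ℂ)⁻¹) = (((N : ℝ)⁻¹ : ℝ) : ℂ) := by push_cast; rfl
  rw [this, Complex.re_ofReal_mul, Complex.re_sum]

/-- The vertex parameters vanish as soon as the moments agree with those of some `J₀` with
`b = 0`. -/
theorem rigidity_b (J J₀ : Par) (ha : ∀ e, 0 < J.2 e) (hb₀ : J₀.1 = 0)
    (hm : ∀ n, tr3 (H3 J ^ n) = tr3 (H3 J₀ ^ n)) (j : Fin 3) : J.1 (some j) = 0 := by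
  by_contra hj
  set M : ℝ := max (‖H3 J‖ ^ 2) (‖H3 J₀‖ ^ 2) + 1 with hM
  have hMpos : 0 < M := by positivity
  set c : ℝ := M⁻¹ with hc
  have hcpos : 0 < c := inv_pos.2 hMpos
  have hcJ : c * ‖H3 J‖ ^ 2 ≤ 1 := by
    rw [hc, inv_mul_le_iff₀ hMpos]
    linarith [le_max_left (‖H3 J‖ ^ 2) (‖H3 J₀‖ ^ 2)]
  have hcJ₀ : c * ‖H3 J₀‖ ^ 2 ≤ 1 := by
    rw [hc, inv_mul_le_iff₀ hMpos]
    linarith [le_max_right (‖H3 J‖ ^ 2) (‖H3 J₀‖ ^ 2)]
  have htr : ∀ n, 2 ≤ tr3 (SS c J ^ n) := by
    intro n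
    have h1 := tr3_SS_ge J₀ hb₀ c hcpos.le hcJ₀ n
    have h2 := tr3_SS_eq J J₀ c hm n 0
    simp only [pow_zero, mul_one] at h2
    rw [h2]; exact h1
  choose p hp1 hp2 hp3 using fun y : T3 =>
    exists_limit (SS c J) (norm_SS_le c hcpos.le J hcJ) (delta y)
  have hker : ∀ y, H3 J (p y) = 0 := fun y => SS_fixed c hcpos J (p y) (hp1 y)
  set q : T3 → ℝ := fun y => (⟪delta y, p y⟫_ℂ).re with hq
  have hlim : ∀ y, Tendsto (fun N : ℕ =>
      (N : ℝ)⁻¹ * ∑ n ∈ Finset.range N, (⟪delta y, (SS c J ^ n) (delta y)⟫_ℂ).re) atTop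
      (𝓝 (q y)) := by
    intro y
    have h1 : Tendsto (fun N : ℕ => (⟪delta y, (N : ℂ)⁻¹ •
        ∑ n ∈ Finset.range N, (SS c J ^ n) (delta y)⟫_ℂ).re) atTop (𝓝 (q y)) := by
      have hcont : Continuous fun z : L2 T3 => (⟪delta y, z⟫_ℂ).re :=
        Complex.continuous_re.comp (continuous_const.inner continuous_id)
      exact (hcont.tendsto (p y)).comp (hp3 y)
    refine h1.congr fun N => re_inner_avg _ N y
  -- the sum of the limits is at least two
  have hsum : 2 ≤ q (Sum.inl 1) + ∑ i : Fin 3, q (Sum.inr (1, i)) := by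
    have h1 := (hlim (Sum.inl 1)).add
      (tendsto_finsetSum Finset.univ fun (i : Fin 3) _ => hlim (Sum.inr (1, i)))
    refine ge_of_tendsto h1 ?_
    filter_upwards [eventually_gt_atTop 0] with N hN
    have h2 : (N : ℝ)⁻¹ * ∑ n ∈ Finset.range N,
        (⟪delta (Sum.inl 1 : T3), (SS c J ^ n) (delta (Sum.inl 1))⟫_ℂ).re +
        ∑ i : Fin 3, (N : ℝ)⁻¹ * ∑ n ∈ Finset.range N,
          (⟪delta (Sum.inr (1, i) : T3), (SS c J ^ n) (delta (Sum.inr (1, i)))⟫_ℂ).re =
        (N : ℝ)⁻¹ * ∑ n ∈ Finset.range N, tr3 (SS c J ^ n) := by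
      rw [← Finset.mul_sum, ← mul_add, Finset.sum_comm, ← Finset.sum_add_distrib]
      rfl
    rw [h2]
    have h3 : (N : ℝ) * 2 ≤ ∑ n ∈ Finset.range N, tr3 (SS c J ^ n) := by
      have := Finset.card_nsmul_le_sum (Finset.range N) (fun n => tr3 (SS c J ^ n)) 2
        (fun n _ => htr n)
      simpa using this
    have hN' : (0 : ℝ) < N := by exact_mod_cast hN
    calc (2 : ℝ) = (N : ℝ)⁻¹ * (N * 2) := by field_simp
      _ ≤ _ := mul_le_mul_of_nonneg_left h3 (by positivity)
  -- bounds for the individual limits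
  have hq0 : q (Sum.inl 1) = 0 := by
    simp only [hq, inner_delta_left, kernel_inl J ha _ (hker _)]
    simp
  have hqj : q (Sum.inr (1, j)) = 0 := by
    simp only [hq, inner_delta_left, kernel_inr J ha _ (hker _) 1 j hj]
    simp
  have hqi : ∀ i : Fin 3, q (Sum.inr (1, i)) < 1 := by
    intro i
    set y : T3 := Sum.inr (1, i) with hy
    have h1 : ‖delta y - p y‖ ^ 2 = 1 - q y := by
      have h2 := @norm_sub_sq ℂ _ _ _ _ (delta y) (p y)
      rw [h2, norm_delta, hp2 y]
      have h3 : RCLike.re ⟪delta y, p y⟫_ℂ = q y := rfl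
      have h4 : (⟪delta y, p y⟫_ℂ).re = q y := rfl
      rw [h3, h4]
      ring
    have h2 : delta y - p y ≠ 0 := by
      intro h0
      have h3 : delta y = p y := sub_eq_zero.1 h0
      have h4 : H3 J (delta y) = 0 := by rw [h3]; exact hker y
      have h5 := H3_inl J (delta y) 1
      rw [h4] at h5
      have h6 : (J.2 (i, false) : ℂ) = 0 := by
        classical
        have h0 : (0 : L2 T3) (Sum.inl 1) = 0 := rfl
        rw [h0, Finset.sum_eq_single i] at h5
        · simp only [delta_apply, hy] at h5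
          simpa using h5.symm
        · intro k _ hk
          simp [delta_apply, hy, hk]
        · simp
      have h7 : J.2 (i, false) = 0 := by exact_mod_cast h6
      exact (ha (i, false)).ne' h7
    have h3 : 0 < ‖delta y - p y‖ ^ 2 := by
      have := norm_pos_iff.2 h2
      positivity
    linarith
  have hlt : ∑ i : Fin 3, q (Sum.inr (1, i)) < 2 := by
    rw [← Finset.add_sum_erase _ _ (Finset.mem_univ j), hqj, zero_add]
    have hcard : (Finset.univ.erase j).card = 2 := by
      rw [Finset.card_erase_of_mem (Finset.mem_univ j)]; simp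
    have hne : (Finset.univ.erase j).Nonempty := by
      rw [← Finset.card_pos, hcard]; norm_num
    calc ∑ i ∈ Finset.univ.erase j, q (Sum.inr (1, i)) < ∑ i ∈ Finset.univ.erase j, (1 : ℝ) :=
          Finset.sum_lt_sum_of_nonempty hne fun i _ => hqi i
      _ = 2 := by rw [Finset.sum_const, hcard]; norm_num
  linarith

theorem tr3_H3 (J : Par) : tr3 (H3 J) = J.1 none + ∑ i, J.1 (some i) := by
  classical
  unfold tr3
  congr 1
  · rw [inner_delta_left, H3_inl]
    simp [delta_apply]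
  · refine Finset.sum_congr rfl fun i _ => ?_
    rw [inner_delta_left, H3_inr]
    simp [delta_apply]

theorem rigidity_b' (J J₀ : Par) (ha : ∀ e, 0 < J.2 e) (hb₀ : J₀.1 = 0)
    (hm : ∀ n, tr3 (H3 J ^ n) = tr3 (H3 J₀ ^ n)) : J.1 = 0 := by
  have h1 := rigidity_b J J₀ ha hb₀ hm
  have h2 := hm 1
  rw [pow_one, pow_one, tr3_H3, tr3_H3] at h2
  funext x
  rcases x with _ | j
  · simp only [h1, hb₀] at h2
    simpa using h2
  · exact h1 j

end

section

open scoped ComplexConjugate ENNReal InnerProductSpace Topology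
open Filter

open Multigraph

/-- letters -/
abbrev Lt : Type := Fin 3 × Bool

def el (c : Lt) : F := FreeGroup.mk [c]

def iv (c : Lt) : Lt := (c.1, !c.2)

theorem el_true (i : Fin 3) : el (i, true) = gen i := rfl

theorem el_false (i : Fin 3) : el (i, false) = (gen i)⁻¹ := rfl

theorem dec1 : ∀ c : Lt, el c * 1 ≠ 1 := by decide +kernel

theorem dec2 : ∀ c d : Lt, el d * (el c * 1) = 1 ↔ d = iv c := by decide +kernel

theorem dec3 : ∀ c d e : Lt, el e * (el d * (el c * 1)) ≠ 1 := by decide +kernel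

theorem dec4 : ∀ c d e f : Lt, el f * (el e * (el d * (el c * 1))) = 1 ↔
    (d = iv c ∧ f = iv e) ∨ (e = iv d ∧ f = iv c) := by decide +kernel

/-- The operator `∑ A_i (U_i + U_i⁻¹)` on functions. -/
def Xop (A : Fin 3 → ℝ) (f : F → ℝ) (g : F) : ℝ := ∑ c : Lt, A c.1 * f (el c * g)

theorem sum_letters (A : Fin 3 → ℝ) (f : F → ℝ) (g : F) :
    ∑ i, A i * (f (gen i * g) + f ((gen i)⁻¹ * g)) = Xop A f g := by
  unfold Xop
  rw [Fintype.sum_prod_type]
  simp only [Fintype.sum_bool, el_true, el_false, mul_add]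

theorem Xop_add (A : Fin 3 → ℝ) (f h : F → ℝ) : Xop A (f + h) = Xop A f + Xop A h := by
  funext g
  simp [Xop, mul_add, Finset.sum_add_distrib]

theorem Xop_smul (A : Fin 3 → ℝ) (r : ℝ) (f : F → ℝ) : Xop A (r • f) = r • Xop A f := by
  funext g
  simp only [Xop, Pi.smul_apply, smul_eq_mul, Finset.mul_sum]
  exact Finset.sum_congr rfl fun c _ => by ring

theorem en_succ (R : ℝ) (A : Fin 3 → ℝ) (n : ℕ) :
    en R A (n + 1) = R • en R A n + Xop A (en R A n) := by
  funext g
  rw [Pi.add_apply, Pi.smul_apply, smul_eq_mul, ← sum_letters]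
  rfl

open Classical in
theorem en_zero (R : ℝ) (A : Fin 3 → ℝ) (g : F) : en R A 0 g = if g = 1 then 1 else 0 := rfl

theorem en_zero_indep (R : ℝ) (A : Fin 3 → ℝ) : en R A 0 = en 0 0 0 := rfl

theorem X1 (A : Fin 3 → ℝ) : Xop A (en 0 0 0) 1 = 0 := by
  simp only [Xop, en_zero, dec1, if_false, mul_zero, Finset.sum_const_zero]

theorem X2 (A : Fin 3 → ℝ) : Xop A (Xop A (en 0 0 0)) 1 = ∑ c : Lt, A c.1 ^ 2 := by
  simp only [Xop, en_zero, dec2]
  refine Finset.sum_congr rfl fun c _ => ?_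
  rw [Finset.sum_eq_single (iv c)]
  · rw [if_pos rfl]
    simp only [iv]
    ring
  · intro d _ hd
    rw [if_neg hd, mul_zero]
  · simp

theorem X3 (A : Fin 3 → ℝ) : Xop A (Xop A (Xop A (en 0 0 0))) 1 = 0 := by
  simp only [Xop, en_zero, dec3, if_false, mul_zero, Finset.sum_const_zero]

theorem X4 (A : Fin 3 → ℝ) : Xop A (Xop A (Xop A (Xop A (en 0 0 0)))) 1 =
    2 * (∑ c : Lt, A c.1 ^ 2) ^ 2 - ∑ c : Lt, A c.1 ^ 4 := by
  classical
  simp only [Xop, en_zero, dec4]
  have inner : ∀ c d : Lt, ∑ e : Lt, A e.1 * ∑ f : Lt, A f.1 *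
      (if (d = iv c ∧ f = iv e) ∨ (e = iv d ∧ f = iv c) then (1 : ℝ) else 0) =
      if d = iv c then ∑ e : Lt, A e.1 ^ 2 else A d.1 * A c.1 := by
    intro c d
    by_cases hd : d = iv c
    · subst hd
      rw [if_pos rfl]
      refine Finset.sum_congr rfl fun e _ => ?_
      rw [Finset.sum_eq_single (iv e)]
      · simp [iv]; ring
      · intro f _ hf
        have : ¬ ((iv c = iv c ∧ f = iv e) ∨ (e = iv (iv c) ∧ f = iv c)) := by
          rintro (⟨_, h⟩ | ⟨h1, h2⟩)
          · exact hf h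
          · apply hf
            rw [h2, h1]
            simp [iv]
        rw [if_neg this, mul_zero]
      · simp
    · rw [if_neg hd, Finset.sum_eq_single (iv d)]
      · rw [Finset.sum_eq_single (iv c)]
        · simp [iv]
        · intro f _ hf
          have : ¬ ((d = iv c ∧ f = iv (iv d)) ∨ (iv d = iv d ∧ f = iv c)) := by
            rintro (⟨h, _⟩ | ⟨_, h⟩)
            · exact hd h
            · exact hf h
          rw [if_neg this, mul_zero]
        · simp
      · intro e _ he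
        have : ∀ f : Lt, ¬ ((d = iv c ∧ f = iv e) ∨ (e = iv d ∧ f = iv c)) := by
          rintro f (⟨h, _⟩ | ⟨h, _⟩)
          · exact hd h
          · exact he h
        simp [this]
      · simp
  simp only [inner]
  have h1 : ∀ c : Lt, ∑ d : Lt, A d.1 * (if d = iv c then ∑ e : Lt, A e.1 ^ 2 else A d.1 * A c.1) =
      A c.1 * (∑ e : Lt, A e.1 ^ 2) + (A c.1 * (∑ d : Lt, A d.1 ^ 2) - A c.1 ^ 3) := by
    intro c
    have h2 : ∀ d : Lt, A d.1 * (if d = iv c then ∑ e : Lt, A e.1 ^ 2 else A d.1 * A c.1) =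
        (if d = iv c then A d.1 * ∑ e : Lt, A e.1 ^ 2 - A d.1 ^ 2 * A c.1 else 0) +
          A d.1 ^ 2 * A c.1 := by
      intro d
      by_cases hd : d = iv c
      · rw [if_pos hd, if_pos hd]; ring
      · rw [if_neg hd, if_neg hd]; ring
    simp only [h2]
    rw [Finset.sum_add_distrib, Finset.sum_ite_eq', if_pos (Finset.mem_univ _), ← Finset.sum_mul]
    simp only [iv]
    ring
  simp only [h1]
  have h3 : ∀ c : Lt, A c.1 * (A c.1 * (∑ e : Lt, A e.1 ^ 2) +
      (A c.1 * (∑ d : Lt, A d.1 ^ 2) - A c.1 ^ 3)) =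
      A c.1 ^ 2 * (2 * ∑ e : Lt, A e.1 ^ 2) - A c.1 ^ 4 := by
    intro c; ring
  simp only [h3]
  rw [Finset.sum_sub_distrib, ← Finset.sum_mul]
  ring

theorem en_two (R : ℝ) (A : Fin 3 → ℝ) : en R A 2 1 = R ^ 2 + ∑ c : Lt, A c.1 ^ 2 := by
  rw [en_succ, en_succ]
  simp only [Xop_add, Xop_smul, Pi.add_apply, Pi.smul_apply, smul_eq_mul, en_zero_indep R A,
    X1, X2]
  have : en 0 0 0 1 = 1 := by rw [en_zero]; simp
  rw [this]
  ring

theorem en_one (R : ℝ) (A : Fin 3 → ℝ) : en R A 1 1 = R := by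
  rw [en_succ]
  simp only [Pi.add_apply, Pi.smul_apply, smul_eq_mul, en_zero_indep R A, X1]
  have : en 0 0 0 1 = 1 := by rw [en_zero]; simp
  rw [this]
  ring

theorem en_four (R : ℝ) (A : Fin 3 → ℝ) : en R A 4 1 = R ^ 4 + 6 * R ^ 2 * ∑ c : Lt, A c.1 ^ 2 +
    (2 * (∑ c : Lt, A c.1 ^ 2) ^ 2 - ∑ c : Lt, A c.1 ^ 4) := by
  rw [en_succ, en_succ, en_succ, en_succ]
  simp only [Xop_add, Xop_smul, Pi.add_apply, Pi.smul_apply, smul_eq_mul, en_zero_indep R A,
    X1, X2, X3, X4, smul_add, smul_smul]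
  have : en 0 0 0 1 = 1 := by rw [en_zero]; simp
  rw [this]
  ring

/-- The moments determine `R` and force `A_i = 1` when `A_i(J₀) = 1`. -/
theorem rigidity_A (J J₀ : Par) (ha : ∀ e, 0 < J.2 e) (hb : J.1 = 0) (hb₀ : J₀.1 = 0)
    (hA₀ : ∀ i, AA J₀ i = 1) (hm : ∀ n, tr3 (H3 J ^ n) = tr3 (H3 J₀ ^ n)) :
    RR J = RR J₀ ∧ ∀ i, AA J i = 1 := by
  have h1 : RR J = RR J₀ := by
    have := hm (2 * (0 + 1))
    rw [tr3_even J hb, tr3_even J₀ hb₀] at this
    simp only [zero_add, en_one] at this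
    linarith
  have h2 : ∑ c : Lt, AA J c.1 ^ 2 = ∑ c : Lt, AA J₀ c.1 ^ 2 := by
    have := hm (2 * (1 + 1))
    rw [tr3_even J hb, tr3_even J₀ hb₀] at this
    norm_num [en_two, h1] at this
    exact this
  have h3 : ∑ c : Lt, AA J c.1 ^ 4 = ∑ c : Lt, AA J₀ c.1 ^ 4 := by
    have := hm (2 * (3 + 1))
    rw [tr3_even J hb, tr3_even J₀ hb₀] at this
    norm_num [en_four, h1, h2] at this
    exact this
  refine ⟨h1, fun i => ?_⟩
  have h4 : ∑ c : Lt, (AA J c.1 ^ 2 - 1) ^ 2 = 0 := by
    have e : ∀ c : Lt, (AA J c.1 ^ 2 - 1) ^ 2 = AA J c.1 ^ 4 - 2 * AA J c.1 ^ 2 + 1 := by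
      intro c; ring
    simp only [e]
    rw [Finset.sum_add_distrib, Finset.sum_sub_distrib, ← Finset.mul_sum, h2, h3]
    simp only [hA₀]
    norm_num
  have h5 := (Finset.sum_eq_zero_iff_of_nonneg (fun c _ => sq_nonneg _)).1 h4 (i, true)
    (Finset.mem_univ _)
  have h6 : AA J i ^ 2 = 1 := by
    have := pow_eq_zero_iff two_ne_zero |>.1 h5
    linarith
  have h7 : 0 < AA J i := mul_pos (ha _) (ha _)
  nlinarith

end

section

open scoped Topology unitInterval
open Filter Real

/-- Every map to the circle lifts to the line. -/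
def LiftProp (X : Type) [TopologicalSpace X] : Prop :=
  ∀ g : X → Circle, Continuous g → ∃ f : X → ℝ, Continuous f ∧ ∀ x, Circle.exp (f x) = g x

/-- Star-shaped sets have the lifting property. -/
theorem liftProp_star {W : Type} [AddCommGroup W] [Module ℝ W] [TopologicalSpace W]
    [ContinuousSMul ℝ W] (D : Set W) (h0 : (0 : W) ∈ D)
    (hstar : ∀ p ∈ D, ∀ t : ℝ, 0 ≤ t → t ≤ 1 → t • p ∈ D) : LiftProp D := by
  intro g hg
  obtain ⟨r, hr⟩ := Circle.exp_surjective (g ⟨0, h0⟩)
  let H : C(I × D, Circle) :=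
    { toFun := fun q => g ⟨(q.1 : ℝ) • (q.2 : W), hstar _ q.2.2 _ q.1.2.1 q.1.2.2⟩
      continuous_toFun := by
        refine hg.comp (Continuous.subtype_mk ?_ _)
        exact (continuous_subtype_val.comp continuous_fst).smul
          (continuous_subtype_val.comp continuous_snd) }
  let f : C(D, ℝ) := ContinuousMap.const _ r
  have H0 : ∀ a, H (0, a) = Circle.exp (f a) := by
    intro a
    change g ⟨((0 : I) : ℝ) • (a : W), _⟩ = Circle.exp r
    rw [hr]
    congr 1
    exact Subtype.ext (zero_smul ℝ (a : W))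
  let L := Circle.isCoveringMap_exp.liftHomotopy H f H0
  refine ⟨fun a => L (1, a), L.continuous.comp (continuous_const.prodMk continuous_id), ?_⟩
  intro a
  have h1 := congrFun (Circle.isCoveringMap_exp.liftHomotopy_lifts H f H0) (1, a)
  have h2 : H (1, a) = g a := by
    change g ⟨((1 : I) : ℝ) • (a : W), _⟩ = g a
    congr 1
    exact Subtype.ext (one_smul ℝ (a : W))
  exact h1.trans h2

theorem LiftProp.homeo {X Y : Type} [TopologicalSpace X] [TopologicalSpace Y] (h : LiftProp X)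
    (e : X ≃ₜ Y) : LiftProp Y := by
  intro g hg
  obtain ⟨f, hf, hf'⟩ := h (g ∘ e) (hg.comp e.continuous)
  refine ⟨f ∘ e.symm, hf.comp e.symm.continuous, fun y => ?_⟩
  have := hf' (e.symm y)
  simpa using this

theorem circle_preconnected : PreconnectedSpace Circle := by
  constructor
  have h : Set.range Circle.exp = Set.univ := Circle.exp_surjective.range_eq
  rw [← h]
  exact isPreconnected_range Circle.exp.continuous

/-- The identity of the circle does not lift. -/
theorem no_section (F : Circle → ℝ) (hF : Continuous F) (h : ∀ z, Circle.exp (F z) = z) :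
    False := by
  have := circle_preconnected
  set w : Circle := Circle.exp π with hw
  have hww : w * w = 1 := by
    rw [hw, ← Circle.exp_add, Circle.exp_eq_one]
    exact ⟨1, by push_cast; ring⟩
  have hw1 : w ≠ 1 := by
    rw [hw]
    intro h1
    obtain ⟨n, hn⟩ := Circle.exp_eq_one.1 h1
    have hpi := Real.pi_pos
    have h2 : (1 : ℝ) = n * 2 := by
      have : π * 1 = π * (n * 2) := by linarith
      exact mul_left_cancel₀ hpi.ne' this
    have h3 : (1 : ℤ) = n * 2 := by exact_mod_cast h2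
    omega
  let G : Circle → ℝ := fun z => F z - F (z * w)
  have hG : Continuous G := hF.sub (hF.comp (continuous_id.mul continuous_const))
  have hodd : ∀ z, G (z * w) = - G z := by
    intro z
    change F (z * w) - F (z * w * w) = - (F z - F (z * w))
    rw [mul_assoc, hww, mul_one]
    ring
  have hex : ∃ z, G z = 0 := by
    rcases le_total (G 1) 0 with h1 | h1
    · have h2 : 0 ≤ G (1 * w) := by rw [hodd]; linarith
      exact mem_range_of_exists_le_of_exists_ge hG ⟨1, h1⟩ ⟨1 * w, h2⟩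
    · have h2 : G (1 * w) ≤ 0 := by rw [hodd]; linarith
      exact mem_range_of_exists_le_of_exists_ge hG ⟨1 * w, h2⟩ ⟨1, h1⟩
  obtain ⟨z, hz⟩ := hex
  have h1 : F z = F (z * w) := sub_eq_zero.1 hz
  have h2 : z = z * w := (h z).symm.trans ((congrArg Circle.exp h1).trans (h (z * w)))
  exact hw1 (mul_left_cancel (a := z) (by rw [← h2, mul_one]))

/-- A space with the lifting property and at least two points is not a torus. -/
theorem not_torus {X : Type} [TopologicalSpace X] (h : LiftProp X) (x y : X) (hxy : x ≠ y)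
    (k : ℕ) : IsEmpty (X ≃ₜ (Fin k → Circle)) := by
  refine ⟨fun e => ?_⟩
  rcases k with _ | k
  · exact hxy (e.injective (Subsingleton.elim _ _))
  · obtain ⟨f, hf, hf'⟩ := h (fun x => e x 0) ((continuous_apply 0).comp e.continuous)
    refine no_section (fun z => f (e.symm fun _ => z)) ?_ ?_
    · exact hf.comp (e.symm.continuous.comp (continuous_pi fun _ => continuous_id))
    · intro z
      rw [hf']
      simp

section Sphere

variable (c : ℝ)

/-- The closed surface `cosh y₀ + cosh y₁ + cosh y₂ = c`. -/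
def YY : Set (ℝ × ℝ × ℝ) := {y | cosh y.1 + cosh y.2.1 + cosh y.2.2 = c}

def DD : Set (ℝ × ℝ) := {p | cosh p.1 + cosh p.2 ≤ c - 1}

def EE : Set (ℝ × ℝ) := {p | cosh p.1 + cosh p.2 = c - 1}

def II : Set ℝ := {x | cosh x ≤ c - 2}

noncomputable def hh (p : ℝ × ℝ) : ℝ := arcosh (c - cosh p.1 - cosh p.2)

variable {c}

theorem cosh_smul_le (t x : ℝ) (h0 : 0 ≤ t) (h1 : t ≤ 1) : cosh (t * x) ≤ cosh x := by
  rw [cosh_le_cosh, abs_mul, abs_of_nonneg h0]
  exact mul_le_of_le_one_left (abs_nonneg x) h1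

theorem DD_star (p : ℝ × ℝ) (hp : p ∈ DD c) (t : ℝ) (h0 : 0 ≤ t) (h1 : t ≤ 1) : t • p ∈ DD c := by
  have h2 := cosh_smul_le t p.1 h0 h1
  have h3 := cosh_smul_le t p.2 h0 h1
  change cosh (t * p.1) + cosh (t * p.2) ≤ c - 1
  have h4 : cosh p.1 + cosh p.2 ≤ c - 1 := hp
  linarith

theorem DD_zero (hc : 3 < c) : (0 : ℝ × ℝ) ∈ DD c := by
  change cosh (0 : ℝ) + cosh (0 : ℝ) ≤ c - 1
  rw [cosh_zero]; linarith

theorem isPreconnected_of_star {W : Type} [AddCommGroup W] [Module ℝ W] [TopologicalSpace W]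
    [ContinuousAdd W] [ContinuousSMul ℝ W] (D : Set W) (h0 : (0 : W) ∈ D)
    (hstar : ∀ p ∈ D, ∀ t : ℝ, 0 ≤ t → t ≤ 1 → t • p ∈ D) : IsPreconnected D := by
  have h1 : StarConvex ℝ (0 : W) D := by
    rw [starConvex_zero_iff]
    intro x hx a ha0 ha1
    exact hstar x hx a ha0 ha1
  exact (h1.isPathConnected h0).isConnected.isPreconnected

theorem DD_preconnected (hc : 3 < c) : IsPreconnected (DD c) :=
  isPreconnected_of_star _ (DD_zero hc) DD_star

theorem II_preconnected (hc : 3 < c) : IsPreconnected (II c) := by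
  refine isPreconnected_of_star _ ?_ ?_
  · change cosh (0 : ℝ) ≤ c - 2
    rw [cosh_zero]; linarith
  · intro x hx t h0 h1
    have h2 := cosh_smul_le t x h0 h1
    change cosh (t * x) ≤ c - 2
    have h3 : cosh x ≤ c - 2 := hx
    linarith

theorem arg_ge_one {p : ℝ × ℝ} (hp : p ∈ DD c) : 1 ≤ c - cosh p.1 - cosh p.2 := by
  have h : cosh p.1 + cosh p.2 ≤ c - 1 := hp
  linarith

theorem hh_continuousOn : ContinuousOn (hh c) (DD c) := by
  refine Real.continuousOn_arcosh.comp ?_ ?_
  · exact Continuous.continuousOn (by fun_prop)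
  · intro p hp
    exact arg_ge_one hp

theorem cosh_hh {p : ℝ × ℝ} (hp : p ∈ DD c) : cosh (hh c p) = c - cosh p.1 - cosh p.2 :=
  Real.cosh_arcosh (arg_ge_one hp)

theorem EE_subset : EE c ⊆ DD c := fun _ hp => le_of_eq hp

theorem hh_EE {p : ℝ × ℝ} (hp : p ∈ EE c) : hh c p = 0 := by
  have h : cosh p.1 + cosh p.2 = c - 1 := hp
  have : c - cosh p.1 - cosh p.2 = 1 := by linarith
  rw [hh, this]
  simp

theorem EE_preconnected (hc : 3 < c) : IsPreconnected (EE c) := by
  set j : ℝ → ℝ := fun x => arcosh (c - 1 - cosh x) with hj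
  have hjc : ContinuousOn j (II c) := by
    refine Real.continuousOn_arcosh.comp ?_ ?_
    · exact Continuous.continuousOn (by fun_prop)
    · intro x hx
      have : cosh x ≤ c - 2 := hx
      change 1 ≤ c - 1 - cosh x
      linarith
  have hcosh : ∀ x ∈ II c, cosh (j x) = c - 1 - cosh x := by
    intro x hx
    have : cosh x ≤ c - 2 := hx
    exact Real.cosh_arcosh (by linarith)
  have hE : EE c = (fun x => (x, j x)) '' II c ∪ (fun x => (x, - j x)) '' II c := by
    ext p
    constructor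
    · intro hp
      have h : cosh p.1 + cosh p.2 = c - 1 := hp
      have hI : p.1 ∈ II c := by
        change cosh p.1 ≤ c - 2
        linarith [one_le_cosh p.2]
      have h1 : cosh (j p.1) = cosh p.2 := by rw [hcosh _ hI]; linarith
      have h2 : |j p.1| = |p.2| := by
        apply le_antisymm
        · exact cosh_le_cosh.1 h1.le
        · exact cosh_le_cosh.1 h1.ge
      rcases abs_eq_abs.1 h2 with h3 | h3
      · left; exact ⟨p.1, hI, Prod.ext rfl h3⟩
      · right; exact ⟨p.1, hI, Prod.ext rfl (by change - j p.1 = p.2; rw [h3, neg_neg])⟩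
    · rintro (⟨x, hx, rfl⟩ | ⟨x, hx, rfl⟩)
      · change cosh x + cosh (j x) = c - 1
        rw [hcosh x hx]; ring
      · change cosh x + cosh (- j x) = c - 1
        rw [cosh_neg, hcosh x hx]; ring
  rw [hE]
  have h1 : IsPreconnected ((fun x => (x, j x)) '' II c) :=
    (II_preconnected hc).image _ (continuousOn_id.prodMk hjc)
  have h2 : IsPreconnected ((fun x => (x, - j x)) '' II c) :=
    (II_preconnected hc).image _ (continuousOn_id.prodMk hjc.neg)
  have hx0 : cosh (arcosh (c - 2)) = c - 2 := Real.cosh_arcosh (by linarith)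
  have hI0 : arcosh (c - 2) ∈ II c := by
    change cosh (arcosh (c - 2)) ≤ c - 2
    rw [hx0]
  have hj0 : j (arcosh (c - 2)) = 0 := by
    simp only [hj, hx0]
    have : c - 1 - (c - 2) = 1 := by ring
    rw [this]; simp
  refine IsPreconnected.union (arcosh (c - 2), 0) ?_ ?_ h1 h2
  · exact ⟨_, hI0, by simp only [hj0]⟩
  · exact ⟨_, hI0, by simp only [hj0, neg_zero]⟩

theorem EE_nonempty (hc : 3 < c) : (arcosh (c - 2), (0 : ℝ)) ∈ EE c := by
  change cosh (arcosh (c - 2)) + cosh 0 = c - 1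
  rw [Real.cosh_arcosh (by linarith), cosh_zero]
  ring

theorem YY_proj {y : ℝ × ℝ × ℝ} (hy : y ∈ YY c) : (y.1, y.2.1) ∈ DD c := by
  have h : cosh y.1 + cosh y.2.1 + cosh y.2.2 = c := hy
  change cosh y.1 + cosh y.2.1 ≤ c - 1
  linarith [one_le_cosh y.2.2]

theorem YY_mem_pos {p : ℝ × ℝ} (hp : p ∈ DD c) : (p.1, p.2, hh c p) ∈ YY c := by
  change cosh p.1 + cosh p.2 + cosh (hh c p) = c
  rw [cosh_hh hp]; ring

theorem YY_mem_neg {p : ℝ × ℝ} (hp : p ∈ DD c) : (p.1, p.2, - hh c p) ∈ YY c := by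
  change cosh p.1 + cosh p.2 + cosh (- hh c p) = c
  rw [cosh_neg, cosh_hh hp]; ring

theorem YY_abs {y : ℝ × ℝ × ℝ} (hy : y ∈ YY c) : |hh c (y.1, y.2.1)| = |y.2.2| := by
  have h : cosh y.1 + cosh y.2.1 + cosh y.2.2 = c := hy
  have h1 : cosh (hh c (y.1, y.2.1)) = cosh y.2.2 := by
    rw [cosh_hh (YY_proj hy)]
    change c - cosh y.1 - cosh y.2.1 = cosh y.2.2
    linarith
  exact le_antisymm (cosh_le_cosh.1 h1.le) (cosh_le_cosh.1 h1.ge)

theorem hh_nonneg {p : ℝ × ℝ} (hp : p ∈ DD c) : 0 ≤ hh c p := Real.arcosh_nonneg (arg_ge_one hp)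

theorem YY_preconnected (hc : 3 < c) : IsPreconnected (YY c) := by
  have hE : YY c = (fun p : ℝ × ℝ => (p.1, p.2, hh c p)) '' DD c ∪
      (fun p : ℝ × ℝ => (p.1, p.2, - hh c p)) '' DD c := by
    ext y
    constructor
    · intro hy
      rcases abs_eq_abs.1 (YY_abs hy) with h3 | h3
      · left; exact ⟨(y.1, y.2.1), YY_proj hy, by simp only [h3]⟩
      · right; exact ⟨(y.1, y.2.1), YY_proj hy, by simp only [h3, neg_neg]⟩
    · rintro (⟨p, hp, rfl⟩ | ⟨p, hp, rfl⟩)
      · exact YY_mem_pos hp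
      · exact YY_mem_neg hp
  rw [hE]
  have h1 : IsPreconnected ((fun p : ℝ × ℝ => (p.1, p.2, hh c p)) '' DD c) :=
    (DD_preconnected hc).image _
      (continuousOn_fst.prodMk (continuousOn_snd.prodMk hh_continuousOn))
  have h2 : IsPreconnected ((fun p : ℝ × ℝ => (p.1, p.2, - hh c p)) '' DD c) :=
    (DD_preconnected hc).image _
      (continuousOn_fst.prodMk (continuousOn_snd.prodMk hh_continuousOn.neg))
  have h0 := EE_nonempty hc
  refine IsPreconnected.union (arcosh (c - 2), 0, 0) ?_ ?_ h1 h2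
  · exact ⟨_, EE_subset h0, by simp only [hh_EE h0]⟩
  · exact ⟨_, EE_subset h0, by simp only [hh_EE h0, neg_zero]⟩

theorem YY_liftProp (hc : 3 < c) : LiftProp (YY c) := by
  intro g hg
  have hD : LiftProp (DD c) := liftProp_star _ (DD_zero hc) DD_star
  let ip : DD c → YY c := fun p => ⟨(p.1.1, p.1.2, hh c p.1), YY_mem_pos p.2⟩
  let im : DD c → YY c := fun p => ⟨(p.1.1, p.1.2, - hh c p.1), YY_mem_neg p.2⟩
  have hhc : Continuous fun p : DD c => hh c p.1 := continuousOn_iff_continuous_domRestrict.1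
    hh_continuousOn
  have hip : Continuous ip := by
    refine Continuous.subtype_mk ?_ _
    exact (continuous_fst.comp continuous_subtype_val).prodMk
      ((continuous_snd.comp continuous_subtype_val).prodMk hhc)
  have him : Continuous im := by
    refine Continuous.subtype_mk ?_ _
    exact (continuous_fst.comp continuous_subtype_val).prodMk
      ((continuous_snd.comp continuous_subtype_val).prodMk hhc.neg)
  obtain ⟨fp, hfp, hfp'⟩ := hD (g ∘ ip) (hg.comp hip)
  obtain ⟨fm, hfm, hfm'⟩ := hD (g ∘ im) (hg.comp him)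
  -- the equator
  let p0 : EE c := ⟨_, EE_nonempty hc⟩
  let inc : EE c → DD c := fun p => ⟨p.1, EE_subset p.2⟩
  have hinc : Continuous inc := Continuous.subtype_mk continuous_subtype_val _
  have hsame : ∀ p : EE c, ip (inc p) = im (inc p) := by
    intro p
    apply Subtype.ext
    change ((p.1.1, p.1.2, hh c p.1) : ℝ × ℝ × ℝ) = (p.1.1, p.1.2, - hh c p.1)
    rw [hh_EE p.2, neg_zero]
  set m : ℝ := fp (inc p0) - fm (inc p0) with hm
  have hm1 : Circle.exp m = 1 := by
    have h1 : Circle.exp (fp (inc p0)) = Circle.exp (fm (inc p0)) := by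
      rw [hfp', hfm']
      change g (ip (inc p0)) = g (im (inc p0))
      rw [hsame]
    rw [hm, Circle.exp_sub, h1, div_self']
  have : PreconnectedSpace (EE c) := isPreconnected_iff_preconnectedSpace.1 (EE_preconnected hc)
  have heq : (fun p : EE c => fp (inc p)) = fun p : EE c => fm (inc p) + m := by
    refine Circle.isCoveringMap_exp.eq_of_comp_eq (hfp.comp hinc)
      ((hfm.comp hinc).add continuous_const) ?_ p0 ?_
    · funext p
      change Circle.exp (fp (inc p)) = Circle.exp (fm (inc p) + m)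
      rw [Circle.exp_add, hm1, mul_one, hfp', hfm']
      change g (ip (inc p)) = g (im (inc p))
      rw [hsame]
    · rw [hm]; ring
  let pr : YY c → DD c := fun y => ⟨(y.1.1, y.1.2.1), YY_proj y.2⟩
  have hpr : Continuous pr := by
    refine Continuous.subtype_mk ?_ _
    exact (continuous_fst.comp continuous_subtype_val).prodMk
      (continuous_fst.comp (continuous_snd.comp continuous_subtype_val))
  refine ⟨fun y => if 0 ≤ y.1.2.2 then fp (pr y) else fm (pr y) + m, ?_, ?_⟩
  · refine Continuous.if_le (hfp.comp hpr) ((hfm.comp hpr).add continuous_const)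
      continuous_const (continuous_snd.comp (continuous_snd.comp continuous_subtype_val)) ?_
    intro y hy
    have hyE : ((y.1.1, y.1.2.1) : ℝ × ℝ) ∈ EE c := by
      have h : cosh y.1.1 + cosh y.1.2.1 + cosh y.1.2.2 = c := y.2
      rw [← hy, cosh_zero] at h
      change cosh y.1.1 + cosh y.1.2.1 = c - 1
      linarith
    exact congrFun heq ⟨_, hyE⟩
  · intro y
    have habs := YY_abs y.2
    have hnn := hh_nonneg (YY_proj y.2)
    rw [abs_of_nonneg hnn] at habs
    by_cases hy : 0 ≤ y.1.2.2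
    · simp only [if_pos hy]
      rw [hfp']
      change g (ip (pr y)) = g y
      congr 1
      apply Subtype.ext
      change ((y.1.1, y.1.2.1, hh c (y.1.1, y.1.2.1)) : ℝ × ℝ × ℝ) = y.1
      rw [habs, abs_of_nonneg hy]
    · simp only [if_neg hy]
      rw [Circle.exp_add, hm1, mul_one, hfm']
      change g (im (pr y)) = g y
      congr 1
      apply Subtype.ext
      change ((y.1.1, y.1.2.1, - hh c (y.1.1, y.1.2.1)) : ℝ × ℝ × ℝ) = y.1
      rw [habs, abs_of_neg (not_le.1 hy), neg_neg]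

end Sphere

end

section

open scoped ComplexConjugate ENNReal InnerProductSpace Topology
open Filter

open Multigraph

/-- The base point: `b = 0`, the two edges to the first outer vertex have parameters `2` and
`1/2`, all other edges have parameter `1`. -/
noncomputable def base3 : Par :=
  (0, fun e => if e = (0, false) then 2 else if e = (0, true) then 1 / 2 else 1)

theorem base3_pos (e : Fin 3 × Bool) : 0 < base3.2 e := by
  simp only [base3]
  split_ifs <;> norm_num

theorem base3_AA (i : Fin 3) : AA base3 i = 1 := by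
  fin_cases i <;> norm_num [AA, base3]

theorem base3_RR : RR base3 = 33 / 4 := by
  have h2 : ¬ ((2 : Fin 3) = 0) := by decide
  rw [RR, Fin.sum_univ_three]
  norm_num [base3, h2]

theorem mem_isoDOS_iff (J : Par) : J ∈ isoDOS cover3 base3 ↔
    J.1 = 0 ∧ (∀ e, 0 < J.2 e) ∧ (∀ i, AA J i = 1) ∧ RR J = 33 / 4 := by
  constructor
  · rintro ⟨ha, hd⟩
    have hm : ∀ n, tr3 (H3 J ^ n) = tr3 (H3 base3 ^ n) := by
      intro n
      have := moments_of_dos_eq cover3 J base3 hd n
      rw [← tr_eq_tr3, ← tr_eq_tr3]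
      exact this
    have hb := rigidity_b' J base3 ha rfl hm
    have hA := rigidity_A J base3 ha hb rfl base3_AA hm
    exact ⟨hb, ha, hA.2, hA.1.trans base3_RR⟩
  · rintro ⟨hb, ha, hA, hR⟩
    refine ⟨ha, fun f hf => ?_⟩
    refine dos_eq_of_moments cover3 J base3 (fun n => ?_) f hf
    have h1 := moments_eq J base3 hb rfl (hR.trans base3_RR.symm)
      (funext fun i => (hA i).trans (base3_AA i).symm) n
    rw [← tr_eq_tr3, ← tr_eq_tr3] at h1
    exact h1

/-- Coordinates of a triple. -/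
def crd (y : ℝ × ℝ × ℝ) : Fin 3 → ℝ := ![y.1, y.2.1, y.2.2]

theorem continuous_crd (i : Fin 3) : Continuous fun y : ℝ × ℝ × ℝ => crd y i := by
  fin_cases i
  · exact continuous_fst
  · exact continuous_fst.comp continuous_snd
  · exact continuous_snd.comp continuous_snd

/-- The Jacobi matrix with `a_i = exp (y_i / 2)`, `a_i' = exp (- y_i / 2)` and `b = 0`. -/
noncomputable def toPar (y : ℝ × ℝ × ℝ) : Par :=
  (0, fun e => Real.exp (if e.2 then - (crd y e.1 / 2) else crd y e.1 / 2))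

theorem toPar_mem (y : ℝ × ℝ × ℝ) (hy : y ∈ YY (33 / 8)) : toPar y ∈ isoDOS cover3 base3 := by
  rw [mem_isoDOS_iff]
  refine ⟨rfl, fun e => Real.exp_pos _, fun i => ?_, ?_⟩
  · simp only [AA, toPar]
    rw [← Real.exp_add]
    simp
  · have h : Real.cosh y.1 + Real.cosh y.2.1 + Real.cosh y.2.2 = 33 / 8 := hy
    have h1 : ∀ i, (toPar y).2 (i, false) ^ 2 + (toPar y).2 (i, true) ^ 2 =
        2 * Real.cosh (crd y i) := by
      intro i
      simp only [toPar]
      rw [← Real.exp_nat_mul, ← Real.exp_nat_mul, Real.cosh_eq]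
      norm_num
      ring_nf
    simp only [RR, h1]
    rw [Fin.sum_univ_three]
    simp only [crd, Matrix.cons_val_zero, Matrix.cons_val_one, Matrix.cons_val]
    linarith

/-- The inverse: `y_i = 2 log a_i`. -/
noncomputable def toTriple (J : Par) : ℝ × ℝ × ℝ :=
  (2 * Real.log (J.2 (0, false)), 2 * Real.log (J.2 (1, false)), 2 * Real.log (J.2 (2, false)))

theorem crd_toTriple (J : Par) (i : Fin 3) : crd (toTriple J) i = 2 * Real.log (J.2 (i, false)) := by
  fin_cases i <;> rfl

theorem toPar_toTriple (J : Par) (hJ : J ∈ isoDOS cover3 base3) : toPar (toTriple J) = J := by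
  rw [mem_isoDOS_iff] at hJ
  obtain ⟨hb, ha, hA, -⟩ := hJ
  refine Prod.ext hb.symm (funext fun e => ?_)
  rcases e with ⟨i, o⟩
  change Real.exp (if o then - (crd (toTriple J) i / 2) else crd (toTriple J) i / 2) = J.2 (i, o)
  rw [crd_toTriple]
  cases o
  · have : 2 * Real.log (J.2 (i, false)) / 2 = Real.log (J.2 (i, false)) := by ring
    simp only [this, Bool.false_eq_true, if_false]
    exact Real.exp_log (ha _)
  · have : 2 * Real.log (J.2 (i, false)) / 2 = Real.log (J.2 (i, false)) := by ring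
    simp only [this, if_true]
    rw [Real.exp_neg, Real.exp_log (ha _)]
    have h1 : J.2 (i, false) * J.2 (i, true) = 1 := hA i
    exact (eq_inv_of_mul_eq_one_right h1).symm

theorem toTriple_toPar (y : ℝ × ℝ × ℝ) : toTriple (toPar y) = y := by
  simp only [toTriple, toPar, Real.log_exp, Bool.false_eq_true, if_false]
  refine Prod.ext ?_ (Prod.ext ?_ ?_)
  · change 2 * (y.1 / 2) = y.1
    ring
  · change 2 * (y.2.1 / 2) = y.2.1
    ring
  · change 2 * (y.2.2 / 2) = y.2.2
    ring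

theorem toTriple_mem (J : Par) (hJ : J ∈ isoDOS cover3 base3) : toTriple J ∈ YY (33 / 8) := by
  have h1 := toPar_toTriple J hJ
  rw [mem_isoDOS_iff] at hJ
  obtain ⟨hb, ha, hA, hR⟩ := hJ
  have h2 : ∀ i, J.2 (i, false) ^ 2 + J.2 (i, true) ^ 2 = 2 * Real.cosh (crd (toTriple J) i) := by
    intro i
    have e1 : J.2 (i, false) = Real.exp (crd (toTriple J) i / 2) := by
      conv_lhs => rw [← h1]
      simp [toPar]
    have e2 : J.2 (i, true) = Real.exp (- (crd (toTriple J) i / 2)) := by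
      conv_lhs => rw [← h1]
      simp [toPar]
    rw [e1, e2, ← Real.exp_nat_mul, ← Real.exp_nat_mul, Real.cosh_eq]
    norm_num
    ring_nf
  simp only [RR, h2] at hR
  rw [Fin.sum_univ_three] at hR
  simp only [crd, Matrix.cons_val_zero, Matrix.cons_val_one, Matrix.cons_val] at hR
  change Real.cosh (toTriple J).1 + Real.cosh (toTriple J).2.1 + Real.cosh (toTriple J).2.2 = 33 / 8
  linarith

/-- The IsoDOS set of `base3` is the closed surface `YY (33/8)`. -/
noncomputable def homeo : YY (33 / 8) ≃ₜ isoDOS cover3 base3 where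
  toFun y := ⟨toPar y.1, toPar_mem y.1 y.2⟩
  invFun J := ⟨toTriple J.1, toTriple_mem J.1 J.2⟩
  left_inv y := Subtype.ext (toTriple_toPar y.1)
  right_inv J := Subtype.ext (toPar_toTriple J.1 J.2)
  continuous_toFun := by
    refine Continuous.subtype_mk ?_ _
    refine continuous_const.prodMk (continuous_pi fun e => ?_)
    rcases e with ⟨i, o⟩
    cases o
    · simp only [Bool.false_eq_true, if_false]
      exact Real.continuous_exp.comp
        (((continuous_crd i).comp continuous_subtype_val).div_const 2)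
    · simp only [if_true]
      exact Real.continuous_exp.comp
        (((continuous_crd i).comp continuous_subtype_val).div_const 2).neg
  continuous_invFun := by
    refine Continuous.subtype_mk ?_ _
    have h : ∀ i : Fin 3, Continuous fun J : isoDOS cover3 base3 =>
        2 * Real.log (J.1.2 (i, false)) := by
      intro i
      refine continuous_const.mul (Continuous.log ?_ ?_)
      · exact (continuous_apply (i, false)).comp (continuous_snd.comp continuous_subtype_val)
      · intro J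
        exact (J.2.1 (i, false)).ne'
    exact (h 0).prodMk ((h 1).prodMk (h 2))

theorem base3_mem : base3 ∈ isoDOS cover3 base3 := ⟨base3_pos, fun _ _ => rfl⟩

theorem isoDOS_preconnected : IsPreconnected (isoDOS cover3 base3) := by
  have : PreconnectedSpace (YY (33 / 8)) :=
    isPreconnected_iff_preconnectedSpace.1 (YY_preconnected (by norm_num))
  rw [isPreconnected_iff_preconnectedSpace]
  constructor
  have h := isPreconnected_range homeo.continuous
  rwa [homeo.surjective.range_eq] at h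

theorem isoDOS_not_torus (k : ℕ) :
    IsEmpty (connectedComponentIn (isoDOS cover3 base3) base3 ≃ₜ (Fin k → Circle)) := by
  rw [isoDOS_preconnected.connectedComponentIn base3_mem]
  have hl : LiftProp (isoDOS cover3 base3) :=
    (YY_liftProp (by norm_num : (3 : ℝ) < 33 / 8)).homeo homeo
  -- two distinct points
  have h0 : (0 : ℝ × ℝ) ∈ DD (33 / 8) := DD_zero (by norm_num)
  refine not_torus hl (homeo ⟨_, YY_mem_pos h0⟩) (homeo ⟨_, YY_mem_neg h0⟩) ?_ k
  intro h
  have h1 := homeo.injective h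
  have h2 : hh (33 / 8) (0 : ℝ × ℝ) = - hh (33 / 8) (0 : ℝ × ℝ) :=
    congrArg (fun z : YY (33 / 8) => z.1.2.2) h1
  have h3 : hh (33 / 8) (0 : ℝ × ℝ) = 0 := by linarith
  have h4 := cosh_hh h0
  rw [h3] at h4
  norm_num at h4

/-- Some connected component of some IsoDOS set is homeomorphic to no torus. -/
theorem result : ∃ (V E : Type) (_ : Fintype V) (_ : Fintype E) (_ : DecidableEq V)
    (G : Multigraph V E), G.Connected ∧ (∀ x, 2 ≤ G.degree x) ∧
    ∃ (U : G.UniversalCover) (J₀ : (V → ℝ) × (E → ℝ)), (∀ e, 0 < J₀.2 e) ∧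
      ∃ J ∈ isoDOS U J₀, ∀ k : ℕ,
        IsEmpty (connectedComponentIn (isoDOS U J₀) J ≃ₜ (Fin k → Circle)) :=
  ⟨Option (Fin 3), Fin 3 × Bool, inferInstance, inferInstance, inferInstance, star3,
    star3_connected, star3_degree, cover3, base3, base3_pos, base3, base3_mem, isoDOS_not_torus⟩

end

end Pool.Agent.Results.MP_24ca2e_an.IsoDosSphere
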